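import Pool.Agent.Helper62.BLD.Vq

/-! Row [VWZ] of the builder: views under zooms. -/

set_option autoImplicit false

namespace Pool.Agent.Helper62.BLD

open Finset Filter Topology Pool.Agent.Helper69.RK Pool.Agent.Helper31.EC Pool.Agent.Helper31.EC.Sp
open Pool.Agent.Helper31.EC.QS Pool.Agent.Helper40.EL Pool.Agent.Helper13.AM Pool.Agent.Helper10.BLD
open Pool.Agent.Helper84.MT Pool.Agent.Helper36.AM
open Pool.Agent.Helper57.TA (sc scT wgt rcst ev_scT sc_mul_mem)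
open Pool.Agent.Helper33.MIX (ev ev_pos ev_and rrj)

noncomputable section

section main

variable {M g r d N r' : ℕ} {w : Fin (M + 1) → ℝ} {P : Spl w d N} {ρ : ℝ} {Cl : MCl (M + 1)}
  {TT : ∀ S : Sp, MSys S (M + 1) (lin g) (Fin r) → Prop} {T : Sp} {c : CD T d N r'}

/-- the sum of the weights -/
theorem sum_w (P : Spl w d N) (ρ : ℝ) : ∑ j : Fin M, w j.castSucc + (1 - ρ) * w (Fin.last M) =
    (d : ℝ) + 1 + (∑ j ∈ univ.erase P.z, P.w j) + (1 - ρ) * P.w P.z := by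
  rw [Pool.Agent.Helper99.BLD.sum_spl P w, Pool.Agent.Helper99.BLD.spl_hw P]
  have h1 : ∑ i, w (P.bI i) = (d : ℝ) + 1 := by
    rw [Finset.sum_congr rfl fun i _ => P.wb i]
    simp
  rw [h1]
  rfl

/-- ROW [VWZ], `0 < s` -/
theorem vw_pos (hT : Hom M Cl g r w ρ TT) (hc : CCo P ρ TT r' T c) {s e : ℝ} (he : 0 < e) (h1 : e ≤ 1) (hs : 0 < s)
    (hse : P.w P.z * s + e ≤ 1) (Z : ∀ k, Setoid (T.F k).Ω) (hZ : ∀ k, Z k = Setoid.ker (c.VK s k))
    (c' : CD (T.chg Z e he) d N r') (hz : c.ZR P.w P.z s e he h1 Z c') (hc' : Ax0 c' P.w P.z ρ) :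
    Vw P TT _ c' := by
  have hnum : c.Num P.w P.z ρ := Pool.Agent.Helper33.CM.st_tn T d N r' c P.w P.z ρ hc.ax0
    (Pool.Agent.Helper99.BLD.st_vwt M Cl g r w ρ TT hT d N r' P T c hc)
  obtain ⟨E, hE, S, t, e0, he0, h01, p, κ, V, A, tE, ht, hw0, hA, hq, hR, hVK, hD, hL⟩ := hc.vw
  have hb := hc.ax0.bx
  have w1 := hc.ax0.w1
  have wz := hc.ax0.wz
  have hwl : P.w P.z = w (Fin.last M) := Pool.Agent.Helper99.BLD.spl_hw P
  have hs1 : P.w P.z * s ≤ 1 := by linarith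
  have hwz0 : 0 < P.w P.z := zero_lt_one.trans (w1 _)
  have hsse : s + e ≤ 1 := by nlinarith [w1 P.z]
  have hc0 : 0 < e0 * s := mul_pos he0 hs
  have hws : w (Fin.last M) * (e0 * s) = e0 * (P.w P.z * s) := by rw [hwl]; ring
  have hlt : w (Fin.last M) * (e0 * s) < 1 := by
    rw [hws]
    nlinarith
  obtain ⟨e1, he1⟩ : ∃ e1, e1 = 1 - w (Fin.last M) * (e0 * s) := ⟨_, rfl⟩
  have he1p : 0 < e1 := by rw [he1]; linarith
  obtain ⟨e', he'⟩ : ∃ e', e' = e0 * e / e1 := ⟨_, rfl⟩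
  have hee : e0 * e = e' * e1 := by rw [he', div_mul_cancel₀ _ he1p.ne']
  have he'p : 0 < e' := by rw [he']; exact div_pos (mul_pos he0 he) he1p
  have hle1 : e0 * e ≤ e1 := by
    rw [he1, hws]
    nlinarith
  have he'1 : e' ≤ 1 := by
    rw [he', div_le_one he1p]
    exact hle1
  have hwe' : P.w P.z * e' < 1 := by
    rw [he', ← mul_div_assoc, div_lt_one he1p, he1, hws]
    have a1 : P.w P.z * e0 * (s + e) < 1 := by
      have a2 : 0 ≤ P.w P.z * e0 := mul_nonneg hwz0.le he0.le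
      calc P.w P.z * e0 * (s + e) ≤ P.w P.z * e0 * 1 := mul_le_mul_of_nonneg_left hsse a2
        _ < 1 := by rw [mul_one]; exact hw0
    linarith
  -- the frame
  obtain ⟨Ph, U, htri, hred, hlit, hU, hUb, hUv⟩ :=
    exists_rec P p (h01 := h01) hT.mono c hb hs.le hs1 t.Q A hA hq hR (hVK s hs.le hs1)
  choose X hX hX' using hz.q
  choose Y hY hY' using hz.R
  have hxb : ∀ m, psi p (U (P.bI m)) =
      QS.rest E hE (sc T (w (P.bI m) * s) * ∑ l, rcst T (A⁻¹ m l) * X l) := by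
    intro m
    rw [hUb m, P.wb m, one_mul, Finset.mul_sum, map_sum]
    apply Finset.sum_congr rfl
    intro l _
    rw [hX l]
    have a1 : sc T s * (rcst T (A⁻¹ m l) * X l) = rcst T (A⁻¹ m l) * (sc T s * X l) := by ring
    rw [a1, map_mul (QS.rest E hE) (rcst T (A⁻¹ m l))]
    rfl
  have hxv : ∀ j, psi p (U (P.vI j)) = QS.rest E hE (sc T (w (P.vI j) * s) * Y j) := by
    intro j
    rw [hUv j, hY j]
    rfl
  have hwa : ∀ a, w a ≤ P.w P.z := fun a => by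
    rw [hwl]
    exact hT.mono (Fin.le_last a)
  have hwa0 : ∀ a, 0 < w a := fun a => by
    have a1 : w 0 ≤ w a := hT.mono (Fin.zero_le a)
    rw [hT.one] at a1
    linarith
  have hx : ∀ a, ∃ x : QS T, psi p (U a) = QS.rest E hE (sc T (w a * s) * x) := by
    intro a
    rcases P.cov a with ⟨i, rfl⟩ | ⟨j, rfl⟩
    · exact ⟨_, hxb i⟩
    · exact ⟨_, hxv j⟩
  have hws1 : ∀ a, w a * s ≤ 1 := fun a => (mul_le_mul_of_nonneg_right (hwa a) hs.le).trans hs1
  have hAg : ∀ a, TR.Ag (w a * s) (ptr p (U a)) 0 := by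
    intro a
    obtain ⟨x, hx⟩ := hx a
    have a1 : sc T (w a * s) * x ∈ QS.Id T (w a * s + 0) :=
      sc_mul_mem (mul_nonneg (hwa0 a).le hs.le) (QS.mem_Id_nonpos le_rfl)
    rw [add_zero] at a1
    have a2 := Pool.Agent.Helper33.MIX.rest_mem E hE a1
    rw [← hx] at a2
    exact (QS.mk_mem_Id (hws1 a)).mp a2
  obtain ⟨E2, K, tE2, hK, hbd⟩ := exists_event (fun a => ptr p (U a)) (fun a => w a * s) hAg
  have hE2 : 0 < ul ((T.rest E).pr E2) := ul_pr_typ_pos (S := T.rest E) E2 tE2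
  obtain ⟨f, hf⟩ := exists_frm p hs t.Q (V s) Ph U htri hred hlit hU (E2 := E2) hE2 hK hbd
  have hE2u : 0 < ul (((T.rest E).chg (T.rest E).tr e0⁻¹ (inv_pos.mpr he0)).pr E2) := hE2
  have ht1 : TT _ (t.im (unz p) E2 hE2u) := hT.im S t ht _ (unz p) E2 hE2u
  -- the box
  have hinfo : (∑ j : Fin M, w j.castSucc + (1 - ρ) * w (Fin.last M)) * (e0 * s) ≤ (lbV p (V s) E2).info := by
    rw [info_lbV (hE := hE) p (hVK s hs.le hs1) (hb.bdd s) E2 hE2, H_restL_typ (S := T.rest E) E2 tE2,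
      H_restL_typ E tE]
    have a1 : H (io (c.VK s)) = ((d : ℝ) + 1 + (∑ j ∈ univ.erase P.z, P.w j) + (1 - ρ) * P.w P.z) * s :=
      hnum.hbe s hs.le hs1
    rw [a1, sum_w P ρ]
    apply le_of_eq
    ring
  have hkap : (t.im (unz p) E2 hE2u).IsKap (e0 * s) (lbV p (V s) E2) :=
    kap_of_info hT ht1 hc0.le hlt (Pool.Agent.Helper68.VW.DMc_im (unz p) E2 hE2u (hD s hs.le hs1)) hinfo
  obtain ⟨t', hgz, ht'⟩ := hT.zoom _ _ ht1 (e0 * s) hc0 hlt (lbV p (V s) E2) f hkap e1 he1p (by rw [he1]; linarith)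
  have tE3 : Typ (S := T.chg Z e he) (ev (S := T) E E2) := typ_ev E2 he tE tE2
  have hE3 : 0 < ul ((T.chg Z e he).pr (ev (S := T) E E2)) := ul_pr_typ_pos (S := T.chg Z e he) _ tE3
  -- the key
  have hQ : ∀ a, ∃ K : ℕ → ℝ, S.Sub K ∧ ∀ᶠ k in UF, ∀ y : (S.F k).Ω, (((lbV p (V s) E2).sp).F k).μ y ≠ 0 →
      |TR.ev (TR.cor t'.Q a) k y - TR.ev (U a) k y / S.dl (e0 * (w a * s)) k| ≤ K k * S.dl e1 k := by
    intro a
    obtain ⟨L, hL1, hL2⟩ := hgz.pt
    refine ⟨L, hL1, ?_⟩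
    filter_upwards [hL2] with k hk y hy
    have a1 := hk y hy a
    rw [hf k y a] at a1
    have a2 : e0 * (w a * s) = w a * (e0 * s) := by ring
    rw [a2]
    exact a1
  have key : ∀ a (x : QS T), psi p (U a) = QS.rest E hE (sc T (w a * s) * x) →
      QS.rest (S := T.chg Z e he) (ev (S := T) E E2) hE3 (cQ Z e he h1 x) =
        (pz p (V s) E2 he he1p he'p (hVK s hs.le hs1) hZ hee).qs
          (cQ (Sz p (V s) E2 he1p).tr e' he'p he'1 (qc t'.Q a)) := by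
    intro a x hx
    refine key_pz p (V s) E2 he he1p he'p (hVK s hs.le hs1) hZ hee h1 he'1 hE hE2 hE3
      (mul_nonneg (hwa0 a).le hs.le) ?_ hle1 (U a) x hx (TR.cor t'.Q a) (hQ a)
    have a1 := mul_le_mul_of_nonneg_right (hwa a) hs.le
    linarith
  have fq : ∀ i, QS.rest (S := T.chg Z e he) (ev (S := T) E E2) hE3 (c'.q i) =
      (pz p (V s) E2 he he1p he'p (hVK s hs.le hs1) hZ hee).qs
        (cQ (Sz p (V s) E2 he1p).tr e' he'p he'1 (qA P A t'.Q i)) := by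
    intro i
    have a1 := fld_q ((QS.rest (S := T.chg Z e he) (ev (S := T) E E2) hE3).comp (cQ Z e he h1)) (rcst T)
      (rcst ((T.chg Z e he).rest (ev (S := T) E E2))) (fun a => rfl) A hA X
      (fun m => (pz p (V s) E2 he he1p he'p (hVK s hs.le hs1) hZ hee).qs
          (cQ (Sz p (V s) E2 he1p).tr e' he'p he'1 (qc t'.Q (P.bI m)))) (fun m => key _ _ (hxb m)) i
    rw [hX' i]
    refine Eq.trans a1 ?_
    unfold qA
    rw [map_sum, map_sum]
    apply Finset.sum_congr rfl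
    intro m _
    rw [map_mul, map_mul]
    rfl
  have fR : ∀ j, QS.rest (S := T.chg Z e he) (ev (S := T) E E2) hE3 (c'.R j) =
      (pz p (V s) E2 he he1p he'p (hVK s hs.le hs1) hZ hee).qs
        (cQ (Sz p (V s) E2 he1p).tr e' he'p he'1 (Rv P t'.Q j)) := by
    intro j
    rw [hY' j]
    exact key _ _ (hxv j)
  have hse0 : ∀ s', 0 ≤ s' → 0 ≤ s + e * s' := fun s' h => add_nonneg hs.le (mul_nonneg he.le h)
  have hse1 : ∀ s', 0 ≤ s' → P.w P.z * s' ≤ 1 → P.w P.z * (s + e * s') ≤ 1 := fun s' h h' => by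
    have a1 : e * (P.w P.z * s') ≤ e * 1 := mul_le_mul_of_nonneg_left h' he.le
    have a2 : P.w P.z * (s + e * s') = P.w P.z * s + e * (P.w P.z * s') := by ring
    rw [a2]
    linarith
  have fV : ∀ s', 0 ≤ s' → P.w P.z * s' ≤ 1 → ∀ k ω ω',
      (((T.chg Z e he).rest (ev (S := T) E E2)).F k).μ ω ≠ 0 →
      (((T.chg Z e he).rest (ev (S := T) E E2)).F k).μ ω' ≠ 0 →
      (((T.chg Z e he).rest (ev (S := T) E E2)).F k).Z ω ω' →
      (c'.VK s' k ω = c'.VK s' k ω' ↔ V (s + e * s') k (p.π k ω) = V (s + e * s') k (p.π k ω')) := by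
    intro s' h0 h0' k ω ω' a b hZZ
    have a1 := supp_pz E2 he k ω a
    have b1 := supp_pz E2 he k ω' b
    have h3 := hz.VK s' h0 (hse1 s' h0 h0') k ω ω' ((T.F k).rest_supp (E k) ω a1).1
      ((T.F k).rest_supp (E k) ω' b1).1 hZZ
    exact h3.trans (hVK (s + e * s') (hse0 s' h0) (hse1 s' h0 h0') k ω ω' a1 b1 hZZ.2)
  have hcc : ∀ b : ℝ, e0 * s + e1 * (e' * b) = e0 * (s + e * b) := fun b => by
    have a1 : e1 * (e' * b) = (e' * e1) * b := by ring
    rw [a1, ← hee]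
    ring
  refine ⟨ev (S := T) E E2, hE3, Sz p (V s) E2 he1p, t', e', he'p, he'1,
    pz p (V s) E2 he he1p he'p (hVK s hs.le hs1) hZ hee, fun s' => κ (s + e * s'), fun s' => V (s + e * s'), A,
    tE3, ht', hwe', hA, fq, fR, fV, ?_, ?_⟩
  · intro s' h0 h0'
    have hs'1 : s' ≤ 1 := by nlinarith [w1 P.z]
    refine (Lab.ofZ_DMf _).mpr ?_
    rintro (_ | i)
    · refine dmc_pt P he'1 (pz p (V s) E2 he he1p he'p (hVK s hs.le hs1) hZ hee) A t'.Q _ _ fq fR (c'.VK s')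
        (V (s + e * s')) (rest_VB _ (hc'.bx.bdd s')) (fV s' h0 h0') ?_
      rw [QS.rest_vd, QS.rest_vd, ← restL_io _ hE3 (hc'.bx.bdd s'), ← restL_sup]
      apply restL_mono
      refine (hc'.bx.pt s' h0 h0').trans (sup_le_sup (vd_mono _ h0') (vd_mono _ h0'))
    · refine dmc_win (unz p) E2 hE2u (hD (s + e * s') (hse0 s' h0) (hse1 s' h0 h0')) _ he1p i ?_
      have a1 := (hgz.win (e' * s') i (mul_nonneg he'p.le h0) (by nlinarith)).2
      rw [hcc s'] at a1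
      exact a1
  · intro hd i0
    have hw : ∀ b, 0 ≤ b → b ≤ 1 →
        PLe ((lbV p (V s) E2).up e1 he1p (((t.im (unz p) E2 hE2u).lf i0).win (e0 * s + e1 * (e' * b))))
          ((t'.lf i0).win (e' * b)) := fun b b0 b1 =>
      (hgz.win (e' * b) i0 (mul_nonneg he'p.le b0) (by nlinarith)).2
    rcases hL hd i0 with hl | ⟨i, hl⟩
    · left
      have a1 : PLe (rp (restL E hE c.O)) ((((t.trn e0 he0 h01).pull p).lf i0).win (s + e * 0)) := by
        refine hl.trans ((((t.trn e0 he0 h01).pull p).lf i0).win_mono ?_)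
        linarith
      exact link_tr p (V s) E2 he he1p he'p (hVK s hs.le hs1) hZ hee h01 he'1 hE hE2 hE2 hE3 t t' i0
        (hw 0 le_rfl zero_le_one) c.O a1 c'.O (zr_O hb hz w1 wz hs.le hse)
    · right
      refine ⟨i, fun b b0 b1 => ?_⟩
      have a0 : s + e * b ≤ 1 := by nlinarith
      refine link_tr p (V s) E2 he he1p he'p (hVK s hs.le hs1) hZ hee h01 he'1 hE hE2 hE2 hE3 t t' i0
        (hw b b0 b1) _ (hl (s + e * b) (hse0 b b0) a0) _ ?_
      rw [chgL_sup]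
      exact sup_le_sup (hz.xi i) (zr_q hb hz hs.le hsse 0 b0 b1)

/-- ROW [VWZ]: views under zooms -/
theorem st_vwz (M : ℕ) : ST_VWZ M := by
  intro Cl g r w ρ TT hT d N r' P T c hc s e he h1 hs hse Z hZ c' hz hc'
  rcases hs.eq_or_lt with h0 | h0
  · subst h0
    exact Pool.Agent.Helper68.VW.vw_zero hc e he h1 Z hZ c' hz
  · exact vw_pos hT hc he h1 h0 hse Z hZ c' hz hc'

end main

end

end Pool.Agent.Helper62.BLD
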