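import Pool.Agent.Helper33.MIX.Ev
import Pool.Agent.Helper7.GZ.Row
import Pool.Agent.Helper13.AM.Zq
import Pool.Agent.Helper57.TA.Sc

/-! Row VWZ, part 2: extensions of a truncation in the original depth, descent of functions, events of a finite family
of small functions. -/

set_option autoImplicit false

namespace Pool.Agent.Helper62.BLD

open Finset Filter Topology Pool.Agent.Helper69.RK Pool.Agent.Helper31.EC Pool.Agent.Helper31.EC.Sp
open Pool.Agent.Helper31.EC.QS Pool.Agent.Helper40.EL Pool.Agent.Helper13.AM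

noncomputable section

variable {W S : Sp} {e0 : ℝ} {he0 : 0 < e0}

/-- an extension of a truncation, in the original depth -/
def unz (p : Pj W (S.chg S.tr e0 he0)) : Pj (W.chg W.tr e0⁻¹ (inv_pos.mpr he0)) S where
  π := p.π
  law := p.law
  hZ := fun k ω ω' a b => ⟨fun h => ((p.hZ k ω ω' a b).1 h.2).2, fun h => ⟨trivial, (p.hZ k ω ω' a b).2 ⟨trivial, h⟩⟩⟩
  hn := fun k => by
    show e0⁻¹ * (W.F k).n = (S.F k).n
    rw [p.hn k]
    show e0⁻¹ * (e0 * (S.F k).n) = (S.F k).n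
    rw [← mul_assoc, inv_mul_cancel₀ he0.ne', one_mul]

variable (p : Pj W (S.chg S.tr e0 he0))

include p in
theorem n_unz (k : ℕ) : (W.F k).n = e0 * (S.F k).n := p.hn k

include p in
theorem dl_unz (r : ℝ) (k : ℕ) : W.dl r k = S.dl (e0 * r) k := by
  unfold Sp.dl
  rw [n_unz p k]
  congr 1
  ring

include p in
theorem sub_unz {K : ℕ → ℝ} (hK : W.Sub K) : S.Sub K := by
  apply chg_sub' S.tr e0 he0
  refine ⟨hK.1, hK.2.congr fun k => ?_⟩
  rw [n_unz p k]
  rfl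

include p in
theorem sub_unz' {K : ℕ → ℝ} (hK : S.Sub K) : W.Sub K := by
  have h1 := chg_sub S.tr e0 he0 hK
  refine ⟨h1.1, h1.2.congr fun k => ?_⟩
  rw [n_unz p k]
  rfl

include p in
theorem supp_lift (k : ℕ) (y : (S.F k).Ω) (hy : (S.F k).μ y ≠ 0) : ∃ ω, (W.F k).μ ω ≠ 0 ∧ p.π k ω = y :=
  p.exists_lift k y hy

include p in
theorem supp_unz (k : ℕ) (ω : (W.F k).Ω) (hω : (W.F k).μ ω ≠ 0) : (S.F k).μ (p.π k ω) ≠ 0 := p.supp k ω hω

/-- functions on `S` on the extension -/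
def ptr : TR S →+* TR W := p.tr.comp (cT S.tr e0 he0)

theorem ev_ptr (f : TR S) (k : ℕ) (ω : (W.F k).Ω) : TR.ev (ptr p f) k ω = TR.ev f k (p.π k ω) := rfl

open Classical in
/-- DESCENT of functions which only depend on the class of the projection -/
theorem descend (B : ∀ k, Setoid (S.F k).Ω) (f : TR W)
    (hf : ∀ᶠ k in UF, ∀ ω ω', (W.F k).μ ω ≠ 0 → (W.F k).μ ω' ≠ 0 → B k (p.π k ω) (p.π k ω') →
      TR.ev f k ω = TR.ev f k ω') :
    ∃ g : TR S, (∀ k y y', B k y y' → TR.ev g k y = TR.ev g k y') ∧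
      ∀ᶠ k in UF, ∀ ω, (W.F k).μ ω ≠ 0 → TR.ev (ptr p g) k ω = TR.ev f k ω := by
  obtain ⟨K, hK, hb⟩ := f.2
  obtain ⟨g0, hg0⟩ : ∃ g0 : ∀ k, Quotient (B k) → ℝ, ∀ k c, g0 k c =
      if h : ∃ ω, (W.F k).μ ω ≠ 0 ∧ Quotient.mk (B k) (p.π k ω) = c then f.1 k h.choose else 0 := ⟨_, fun _ _ => rfl⟩
  refine ⟨⟨fun k y => g0 k (Quotient.mk (B k) y), K, sub_unz p hK, ?_⟩, ?_, ?_⟩
  · filter_upwards [hb, hK.1] with k hk hK0 y _
    show |g0 k (Quotient.mk (B k) y)| ≤ K k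
    rw [hg0]
    split_ifs with h
    · exact hk _ h.choose_spec.1
    · rw [abs_zero]
      exact hK0
  · intro k y y' h
    show g0 k (Quotient.mk (B k) y) = g0 k (Quotient.mk (B k) y')
    rw [Quotient.sound h]
  · filter_upwards [hf] with k hk ω hω
    show g0 k (Quotient.mk (B k) (p.π k ω)) = f.1 k ω
    rw [hg0]
    have h : ∃ ω', (W.F k).μ ω' ≠ 0 ∧ Quotient.mk (B k) (p.π k ω') = Quotient.mk (B k) (p.π k ω) := ⟨ω, hω, rfl⟩
    rw [dif_pos h]
    exact hk _ ω h.choose_spec.1 hω (Quotient.exact h.choose_spec.2)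

/-- finite sums of subexponential sequences -/
theorem Sub_sum {κ : Type*} (s : Finset κ) {K : κ → ℕ → ℝ} (h : ∀ a ∈ s, W.Sub (K a)) :
    W.Sub (fun k => ∑ a ∈ s, K a k) := by
  classical
  induction s using Finset.induction_on with
  | empty => simpa using W.Sub_const le_rfl
  | insert a s ha ih =>
    have h1 := (h a (Finset.mem_insert_self a s)).add (ih fun b hb => h b (Finset.mem_insert_of_mem hb))
    have e1 : (fun k => ∑ a ∈ insert a s, K a k) = fun k => K a k + ∑ a ∈ s, K a k := by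
      funext k
      rw [Finset.sum_insert ha]
    rw [e1]
    exact h1

/-- one bound for finitely many sequences -/
theorem exists_bound {κ : Type*} [Fintype κ] (K : κ → ℕ → ℝ) (h : ∀ a, W.Sub (K a)) :
    ∃ L : ℕ → ℝ, W.Sub L ∧ ∀ᶠ k in UF, ∀ a, K a k ≤ L k := by
  refine ⟨fun k => ∑ a, K a k, Sub_sum _ fun a _ => h a, ?_⟩
  have h1 : ∀ᶠ k in UF, ∀ a, 0 ≤ K a k := Filter.eventually_all.mpr fun a => (h a).1
  filter_upwards [h1] with k hk a
  exact Finset.single_le_sum (f := fun a => K a k) (fun b _ => hk b) (Finset.mem_univ a)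

/-- a typical event on which finitely many functions are small -/
theorem exists_event {m : ℕ} (f : Fin m → TR W) (r : Fin m → ℝ) (h : ∀ a, TR.Ag (r a) (f a) 0) :
    ∃ (E : ∀ k, (W.F k).Ω → Prop) (K : ℕ → ℝ), Typ E ∧ W.Sub K ∧ ∀ᶠ k in UF, ∀ ω, (W.F k).μ ω ≠ 0 → E k ω →
      ∀ a, |TR.ev (f a) k ω| ≤ K k * W.dl (r a) k := by
  choose E K hE hK hh using h
  obtain ⟨L, hL, hb⟩ := exists_bound K hK
  refine ⟨fun k ω => ∀ a, E a k ω, L, Pool.Agent.Helper7.GZ.Typ_all E hE, hL, ?_⟩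
  have h1 : ∀ᶠ k in UF, ∀ a, ∀ ω, (W.F k).μ ω ≠ 0 → E a k ω → |TR.ev (f a) k ω - TR.ev 0 k ω| ≤
      K a k * W.dl (r a) k := Filter.eventually_all.mpr hh
  filter_upwards [h1, hb] with k hk hk' ω hω hE' a
  have h2 := hk a ω hω (hE' a)
  rw [TR.ev_zero, sub_zero] at h2
  exact h2.trans (mul_le_mul_of_nonneg_right (hk' a) (W.dl_pos _ _).le)

end

end Pool.Agent.Helper62.BLD
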