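import Pool.Agent.Helper62.BLD.Pol
import Pool.Agent.Helper62.BLD.Des
import Pool.Agent.Helper10.BLD.St

/-! Row VWZ, part 3: the frame of the box of scale `s` of a corner, on the space of the member of the homogeneous class
(triangular polynomials with coefficients in the tame functions, solution of the triangular system). -/

set_option autoImplicit false

namespace Pool.Agent.Helper62.BLD

open Finset Filter Topology Pool.Agent.Helper69.RK Pool.Agent.Helper31.EC Pool.Agent.Helper31.EC.Sp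
open Pool.Agent.Helper31.EC.QS Pool.Agent.Helper40.EL Pool.Agent.Helper13.AM Pool.Agent.Helper10.BLD
open Pool.Agent.Helper82.TP (Lit)
open Pool.Agent.Helper57.TA (sc wgt rcst eval_sbs map_sbs)

noncomputable section

/-! ### coordinates -/

section spl

variable {M d N : ℕ} {w : Fin (M + 1) → ℝ} (P : Spl w d N)

/-- all coordinates -/
def cd : Fin (d + 1) ⊕ Fin N → Fin (M + 1) := Sum.elim P.bI P.vI

theorem cd_bij : Function.Bijective (cd P) := by
  constructor
  · intro x y h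
    rcases x with i | i <;> rcases y with j | j
    · exact congrArg Sum.inl (P.sb.injective h)
    · exact absurd h (P.bv i j).ne
    · exact absurd h.symm (P.bv j i).ne
    · exact congrArg Sum.inr (P.sv.injective h)
  · intro a
    rcases P.cov a with ⟨i, hi⟩ | ⟨j, hj⟩
    · exact ⟨Sum.inl i, hi⟩
    · exact ⟨Sum.inr j, hj⟩

/-- all coordinates -/
def eqv : Fin (d + 1) ⊕ Fin N ≃ Fin (M + 1) := Equiv.ofBijective _ (cd_bij P)

theorem eqv_inl (i : Fin (d + 1)) : eqv P (Sum.inl i) = P.bI i := rfl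

theorem eqv_inr (j : Fin N) : eqv P (Sum.inr j) = P.vI j := rfl

theorem eqv_symm_b (i : Fin (d + 1)) : (eqv P).symm (P.bI i) = Sum.inl i := by
  rw [Equiv.symm_apply_eq]
  rfl

theorem eqv_symm_v (j : Fin N) : (eqv P).symm (P.vI j) = Sum.inr j := by
  rw [Equiv.symm_apply_eq]
  rfl

/-- coordinate changes of the base, as substitutions -/
def phi {R : Type*} [CommRing R] (κ : ℝ →+* R) (A : Matrix (Fin (d + 1)) (Fin (d + 1)) ℝ) :
    Fin (d + 1) ⊕ Fin N → MvPolynomial (Fin (M + 1)) R :=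
  Sum.elim (fun i => ∑ l, MvPolynomial.C (κ (A i l)) * MvPolynomial.X (P.bI l)) (fun j => MvPolynomial.X (P.vI j))

variable {R R' : Type*} [CommRing R] [CommRing R'] (κ : ℝ →+* R) (A : Matrix (Fin (d + 1)) (Fin (d + 1)) ℝ)

theorem map_phi (ψ : R →+* R') (x : Fin (d + 1) ⊕ Fin N) :
    MvPolynomial.map ψ (phi P κ A x) = phi P (ψ.comp κ) A x := by
  rcases x with i | j
  · show MvPolynomial.map ψ (∑ l, MvPolynomial.C (κ (A i l)) * MvPolynomial.X (P.bI l)) = _
    rw [map_sum]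
    apply Finset.sum_congr rfl
    intro l _
    rw [map_mul, MvPolynomial.map_C, MvPolynomial.map_X]
    rfl
  · show MvPolynomial.map ψ (MvPolynomial.X (P.vI j)) = _
    rw [MvPolynomial.map_X]
    rfl

theorem WD_phi (x : Fin (d + 1) ⊕ Fin N) : WD w (Sum.elim (fun _ => 1) P.w x) (phi P κ A x) := by
  rcases x with i | j
  · show WD w 1 (∑ l, MvPolynomial.C (κ (A i l)) * MvPolynomial.X (P.bI l))
    refine WD.sum Finset.univ fun l _ => ?_
    refine ((WD_C w _).mul (WD_X w (P.bI l))).mono (le_of_eq ?_)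
    rw [P.wb, zero_add]
  · exact WD_X w (P.vI j)

theorem mem_vars_X {σ : Type*} {i n : σ} (h : i ∈ (MvPolynomial.X n : MvPolynomial σ R).vars) : i = n := by
  classical
  rw [MvPolynomial.mem_vars_iff_mem_support] at h
  obtain ⟨a, ha, hi⟩ := h
  rw [MvPolynomial.mem_support_iff, MvPolynomial.coeff_X'] at ha
  split_ifs at ha with h1
  · rw [← h1] at hi
    have h2 := Finsupp.support_single_subset hi
    exact Finset.mem_singleton.mp h2
  · exact absurd rfl ha

theorem vars_phi {x : Fin (d + 1) ⊕ Fin N} {i : Fin (M + 1)} (hi : i ∈ (phi P κ A x).vars) :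
    (∃ l, i = P.bI l) ∨ ∃ j, x = Sum.inr j ∧ i = P.vI j := by
  classical
  rcases x with b | j
  · left
    have h1 : i ∈ (∑ l, (MvPolynomial.C (κ (A b l)) * MvPolynomial.X (P.bI l) :
        MvPolynomial (Fin (M + 1)) R)).vars := hi
    have h2 := MvPolynomial.vars_sum_subset _ _ h1
    rw [Finset.mem_biUnion] at h2
    obtain ⟨l, _, h3⟩ := h2
    have h4 := MvPolynomial.vars_mul _ _ h3
    rw [MvPolynomial.vars_C, Finset.empty_union] at h4
    exact ⟨l, mem_vars_X h4⟩
  · right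
    exact ⟨j, rfl, mem_vars_X hi⟩

/-- inverse matrices -/
theorem lin_inv (ρ : ℝ →+* R) (A B : Matrix (Fin (d + 1)) (Fin (d + 1)) ℝ) (h : A * B = 1) (x : Fin (d + 1) → R)
    (i : Fin (d + 1)) : ∑ l, ρ (A i l) * ∑ j, ρ (B l j) * x j = x i := by
  have h1 : ∀ l, ρ (A i l) * ∑ j, ρ (B l j) * x j = ∑ j, ρ (A i l * B l j) * x j := by
    intro l
    rw [Finset.mul_sum]
    apply Finset.sum_congr rfl
    intro j _
    rw [map_mul, mul_assoc]
  rw [Finset.sum_congr rfl fun l _ => h1 l, Finset.sum_comm]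
  have h2 : ∀ j, ∑ l, ρ (A i l * B l j) * x j = (if i = j then 1 else 0) * x j := by
    intro j
    rw [← Finset.sum_mul, ← map_sum]
    have h3 : ∑ l, A i l * B l j = (A * B) i j := rfl
    rw [h3, h, Matrix.one_apply]
    split_ifs
    · rw [map_one]
    · rw [map_zero]
  rw [Finset.sum_congr rfl fun j _ => h2 j]
  simp

end spl

/-- real constants -/
def cst (S : Sp) : ℝ →+* TR S where
  toFun c := ⟨fun _ _ => c, fun _ => |c|, S.Sub_const (abs_nonneg c), Eventually.of_forall fun _ _ _ => le_rfl⟩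
  map_one' := rfl
  map_mul' _ _ := rfl
  map_zero' := rfl
  map_add' _ _ := rfl

/-! ### the frame -/

section frame

variable {M d N r' : ℕ} {w : Fin (M + 1) → ℝ} (P : Spl w d N) {T S : Sp} {E : ∀ k, (T.F k).Ω → Prop}
  {hE : 0 < ul (T.pr E)} {e0 : ℝ} {he0 : 0 < e0} {h01 : e0 ≤ 1} (p : Pj (T.rest E) (S.chg S.tr e0 he0))

/-- functions on `S` on the event, to full precision -/
def psi : TR S →+* QS (T.rest E) := QS.mk.comp (ptr p)

theorem psi_eq (f : TR S) : psi p f = p.qs (cQ S.tr e0 he0 h01 (QS.mk f)) := rfl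

theorem psi_cst (x : ℝ) : psi p (cst S x) = rcst (T.rest E) x := rfl

/-- the class of a box in the space of the member -/
def cls {κ : ℕ → Type} (V : ∀ k, (S.F k).Ω → κ k) : ∀ k, Setoid (S.F k).Ω := fun k => (S.F k).Z ⊓ Setoid.ker (V k)

/-- descent of literal functions -/
theorem lit_desc {β κ : ℕ → Type} {VK : ∀ k, (T.F k).Ω → β k} {V : ∀ k, (S.F k).Ω → κ k}
    (hV : ∀ k ω ω', ((T.rest E).F k).μ ω ≠ 0 → ((T.rest E).F k).μ ω' ≠ 0 → ((T.rest E).F k).Z ω ω' →
      (VK k ω = VK k ω' ↔ V k (p.π k ω) = V k (p.π k ω'))) {f : QS T} (hf : Lit VK f) :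
    ∃ g : TR S, (∀ k y y', cls V k y y' → TR.ev g k y = TR.ev g k y') ∧ psi p g = QS.rest E hE f := by
  obtain ⟨f, rfl, hlit⟩ := hf
  obtain ⟨g, hg1, hg2⟩ := descend p (cls V) (TR.rest E f) (by
    filter_upwards [hlit] with k hk ω ω' a b h
    have h1 : ((T.rest E).F k).Z ω ω' := (p.hZ k ω ω' a b).2 ⟨trivial, h.1⟩
    have h2 : VK k ω = VK k ω' := (hV k ω ω' a b h1).2 h.2
    exact hk ω ω' ((T.F k).rest_supp (E k) ω a).1 ((T.F k).rest_supp (E k) ω' b).1 h1 h2)
  refine ⟨g, hg1, ?_⟩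
  rw [QS.rest_mk]
  exact Pool.Agent.Helper33.MIX.mk_eq_of_supp hg2

/-- THE FRAME of the box `s` on the space of the member -/
theorem exists_rec (hmono : Monotone w) (c : CD T d N r') (hb : c.Bx P.w P.z) {s : ℝ} (hs : 0 ≤ s)
    (hs1 : P.w P.z * s ≤ 1) (Q : S.VV (M + 1)) (A : Matrix (Fin (d + 1)) (Fin (d + 1)) ℝ) (hA : IsUnit A.det)
    (hq : ∀ i, QS.rest E hE (c.q i) = p.qs (cQ S.tr e0 he0 h01 (qA P A Q i)))
    (hR : ∀ j, QS.rest E hE (c.R j) = p.qs (cQ S.tr e0 he0 h01 (Rv P Q j)))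
    {κ : ℕ → Type} {V : ∀ k, (S.F k).Ω → κ k}
    (hV : ∀ k ω ω', ((T.rest E).F k).μ ω ≠ 0 → ((T.rest E).F k).μ ω' ≠ 0 → ((T.rest E).F k).Z ω ω' →
      (c.VK s k ω = c.VK s k ω' ↔ V k (p.π k ω) = V k (p.π k ω'))) :
    ∃ (Ph : Fin (M + 1) → MvPolynomial (Fin (M + 1)) (TR S)) (U : Fin (M + 1) → TR S),
      (∀ j, ∀ i ∈ (Ph j).vars, i < j) ∧ (∀ j a, (Ph j).coeff a ≠ 0 → a ≠ 0 → wgt w a < w j) ∧
      (∀ k y y', cls V k y y' → ∀ j, MvPolynomial.map (TR.evh k y) (Ph j) = MvPolynomial.map (TR.evh k y') (Ph j)) ∧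
      (∀ j, TR.cor Q j = MvPolynomial.eval U (Ph j) + U j) ∧
      (∀ i, psi p (U (P.bI i)) = ∑ l, rcst (T.rest E) (A⁻¹ i l) * QS.rest E hE (c.q l - c.q0 s l)) ∧
      ∀ j, psi p (U (P.vI j)) = QS.rest E hE (c.γ s j) := by
  classical
  have hBA : A⁻¹ * A = 1 := Matrix.nonsing_inv_mul A hA
  have hAB : A * A⁻¹ = 1 := Matrix.mul_nonsing_inv A hA
  choose q0 hq0 hq0' using fun l => lit_desc (hE := hE) p hV (hb.litq s l)
  choose cf hcf hcf' using fun j n => lit_desc (hE := hE) p hV (hb.litF s j n)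
  obtain ⟨Fh, hFh⟩ : ∃ Fh : Fin N → MvPolynomial (Fin (d + 1) ⊕ Fin N) (TR S),
      ∀ j, Fh j = ∑ n ∈ (c.F s j).support, MvPolynomial.monomial n (cf j n) := ⟨_, fun _ => rfl⟩
  have hco : ∀ j n, (Fh j).coeff n = if n ∈ (c.F s j).support then cf j n else 0 := by
    intro j n
    rw [hFh, MvPolynomial.coeff_sum]
    simp only [MvPolynomial.coeff_monomial]
    rw [Finset.sum_ite_eq' (c.F s j).support n (fun m => cf j m)]
  have hco' : ∀ j n, (Fh j).coeff n ≠ 0 → wgt (Sum.elim (fun _ => 1) P.w) n < P.w j := by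
    intro j n hn
    rw [hco] at hn
    split_ifs at hn with h
    · exact hb.deg s j n (MvPolynomial.mem_support_iff.mp h)
    · exact absurd rfl hn
  have hmF : ∀ j, MvPolynomial.map (psi p) (Fh j) = MvPolynomial.map (QS.rest E hE) (c.F s j) := by
    intro j
    ext n
    rw [MvPolynomial.coeff_map, MvPolynomial.coeff_map, hco]
    split_ifs with h
    · exact hcf' j n
    · rw [map_zero, MvPolynomial.notMem_support_iff.mp h, map_zero]
  obtain ⟨Ph, hPh⟩ : ∃ Ph : Fin (M + 1) → MvPolynomial (Fin (M + 1)) (TR S),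
      ∀ a, Ph a = Sum.elim (fun i => MvPolynomial.C (∑ l, cst S (A⁻¹ i l) * q0 l))
        (fun j => MvPolynomial.aeval (phi P (cst S) A) (Fh j)) ((eqv P).symm a) := ⟨_, fun _ => rfl⟩
  have hPb : ∀ i, Ph (P.bI i) = MvPolynomial.C (∑ l, cst S (A⁻¹ i l) * q0 l) := by
    intro i
    rw [hPh, eqv_symm_b]
    rfl
  have hPv : ∀ j, Ph (P.vI j) = MvPolynomial.aeval (phi P (cst S) A) (Fh j) := by
    intro j
    rw [hPh, eqv_symm_v]
    rfl
  have w0 : ∀ j, 0 ≤ P.w j := fun j => (zero_lt_one.trans (P.wv j)).le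
  have htri : ∀ j, ∀ i ∈ (Ph j).vars, i < j := by
    intro j i hi
    rcases P.cov j with ⟨b, rfl⟩ | ⟨v, rfl⟩
    · rw [hPb, MvPolynomial.vars_C] at hi
      exact absurd hi (Finset.notMem_empty i)
    · rw [hPv] at hi
      obtain ⟨x, ⟨n, hn, hx⟩, h1⟩ := vars_sbs _ _ hi
      rcases vars_phi P (cst S) A h1 with ⟨l, rfl⟩ | ⟨l, rfl, rfl⟩
      · exact P.bv l v
      · have h2 := hco' v n hn
        have h3 : P.w l ≤ wgt (Sum.elim (fun _ => 1) P.w) n := by
          have h4 : (n (Sum.inr l) : ℝ) * P.w l ≤ wgt (Sum.elim (fun _ => 1) P.w) n := by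
            unfold wgt
            refine Finset.single_le_sum (f := fun a => (n a : ℝ) * Sum.elim (fun _ => 1) P.w a) (fun a _ => ?_)
              (Finset.mem_univ (Sum.inr l : Fin (d + 1) ⊕ Fin N))
            rcases a with a | a
            · exact mul_nonneg (Nat.cast_nonneg _) zero_le_one
            · exact mul_nonneg (Nat.cast_nonneg _) (w0 a)
          have h5 : (1 : ℝ) ≤ n (Sum.inr l) := by exact_mod_cast Nat.one_le_iff_ne_zero.mpr hx
          nlinarith [w0 l]
        have h4 : w (P.vI l) < w (P.vI v) := lt_of_le_of_lt h3 h2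
        exact hmono.reflect_lt h4
  obtain ⟨U, hU⟩ := exists_tri Ph htri (TR.cor Q)
  obtain ⟨y, hy⟩ : ∃ y : Fin (M + 1) → QS (T.rest E), ∀ a, y a =
      Sum.elim (fun i => ∑ l, rcst (T.rest E) (A⁻¹ i l) * QS.rest E hE (c.q l - c.q0 s l))
        (fun j => QS.rest E hE (c.γ s j)) ((eqv P).symm a) := ⟨_, fun _ => rfl⟩
  have hyb : ∀ i, y (P.bI i) = ∑ l, rcst (T.rest E) (A⁻¹ i l) * QS.rest E hE (c.q l - c.q0 s l) := by
    intro i
    rw [hy, eqv_symm_b]
    rfl
  have hyv : ∀ j, y (P.vI j) = QS.rest E hE (c.γ s j) := by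
    intro j
    rw [hy, eqv_symm_v]
    rfl
  have hUy : ∀ a, psi p (U a) = y a := by
    refine tri_unique Ph htri (psi p) hU fun a => ?_
    rcases P.cov a with ⟨i, rfl⟩ | ⟨j, rfl⟩
    · rw [hPb, hyb, MvPolynomial.map_C, MvPolynomial.eval_C, map_sum, ← Finset.sum_add_distrib]
      have h1 : ∀ l, QS.rest E hE (c.q l) = ∑ j, rcst (T.rest E) (A l j) * psi p (TR.cor Q (P.bI j)) := by
        intro l
        rw [hq]
        show p.qs (cQ S.tr e0 he0 h01 (∑ j, rcst S (A l j) * qc Q (P.bI j))) = _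
        rw [map_sum, map_sum]
        apply Finset.sum_congr rfl
        intro j _
        rw [map_mul, map_mul]
        rfl
      have h2 := lin_inv (rcst (T.rest E)) A⁻¹ A hBA (fun j => psi p (TR.cor Q (P.bI j))) i
      rw [← h2]
      apply Finset.sum_congr rfl
      intro l _
      rw [← h1, map_mul, psi_cst, hq0' l, map_sub]
      ring
    · rw [hPv, hyv, map_sbs, eval_sbs, hmF]
      have h1 : psi p (TR.cor Q (P.vI j)) = QS.rest E hE (c.R j) := (hR j).symm
      rw [h1, hb.fR s hs hs1 j, map_add]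
      congr 1
      rw [← MvPolynomial.eval₂_id, MvPolynomial.eval₂_comp_left (QS.rest E hE) (RingHom.id _), RingHom.comp_id,
        MvPolynomial.eval_map]
      congr 1
      funext x
      rcases x with i | l
      · show QS.rest E hE (c.q i - c.q0 s i) = MvPolynomial.eval y (MvPolynomial.map (psi p) (phi P (cst S) A (Sum.inl i)))
        rw [map_phi]
        show _ = MvPolynomial.eval y (∑ l, MvPolynomial.C (((psi p).comp (cst S)) (A i l)) * MvPolynomial.X (P.bI l))
        rw [map_sum]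
        have h3 : ∀ l, MvPolynomial.eval y (MvPolynomial.C (((psi p).comp (cst S)) (A i l)) *
            MvPolynomial.X (P.bI l)) = rcst (T.rest E) (A i l) *
              ∑ m, rcst (T.rest E) (A⁻¹ l m) * QS.rest E hE (c.q m - c.q0 s m) := by
          intro l
          rw [map_mul, MvPolynomial.eval_C, MvPolynomial.eval_X, hyb]
          rfl
        rw [Finset.sum_congr rfl fun l _ => h3 l, lin_inv _ A A⁻¹ hAB]
      · show QS.rest E hE (c.γ s l) = MvPolynomial.eval y (MvPolynomial.map (psi p) (phi P (cst S) A (Sum.inr l)))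
        rw [map_phi]
        show _ = MvPolynomial.eval y (MvPolynomial.X (P.vI l))
        rw [MvPolynomial.eval_X, hyv]
  refine ⟨Ph, U, htri, ?_, ?_, hU, fun i => (hUy _).trans (hyb i), fun j => (hUy _).trans (hyv j)⟩
  · intro j a ha ha0
    rcases P.cov j with ⟨b, rfl⟩ | ⟨v, rfl⟩
    · rw [hPb, MvPolynomial.coeff_C, if_neg (Ne.symm ha0)] at ha
      exact absurd rfl ha
    · rw [hPv] at ha
      obtain ⟨n, hn, h1⟩ := wd_sbs _ _ w (Sum.elim (fun _ => 1) P.w) (WD_phi P (cst S) A) a ha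
      exact lt_of_le_of_lt h1 (hco' v n hn)
  · intro k y1 y2 h12 j
    rcases P.cov j with ⟨b, rfl⟩ | ⟨v, rfl⟩
    · rw [hPb, MvPolynomial.map_C, MvPolynomial.map_C]
      congr 1
      rw [map_sum, map_sum]
      apply Finset.sum_congr rfl
      intro l _
      rw [map_mul, map_mul]
      show TR.ev (cst S (A⁻¹ b l)) k y1 * TR.ev (q0 l) k y1 = TR.ev (cst S (A⁻¹ b l)) k y2 * TR.ev (q0 l) k y2
      rw [hq0 l k y1 y2 h12]
      rfl
    · rw [hPv, map_sbs, map_sbs]
      have h1 : ∀ y0, (fun a => MvPolynomial.map (TR.evh k y0) (phi P (cst S) A a)) = phi P (RingHom.id ℝ) A := by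
        intro y0
        funext x
        rw [map_phi]
        rfl
      rw [h1, h1]
      congr 1
      ext n
      rw [MvPolynomial.coeff_map, MvPolynomial.coeff_map, hco]
      split_ifs
      · exact hcf v n k y1 y2 h12
      · rw [map_zero, map_zero]

end frame

end

end Pool.Agent.Helper62.BLD
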