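import Pool.Agent.Helper62.BLD.Fra

/-! Row VWZ, part 4: the frame of the label of the box on the space of the member, restricted to a typical event. -/

set_option autoImplicit false

namespace Pool.Agent.Helper62.BLD

open Finset Filter Topology Pool.Agent.Helper69.RK Pool.Agent.Helper31.EC Pool.Agent.Helper31.EC.Sp
open Pool.Agent.Helper31.EC.QS Pool.Agent.Helper40.EL Pool.Agent.Helper13.AM Pool.Agent.Helper10.BLD
open Pool.Agent.Helper84.MT Pool.Agent.Helper36.AM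
open Pool.Agent.Helper82.TP (Lit)
open Pool.Agent.Helper57.TA (sc wgt rcst eval_sbs map_sbs)

noncomputable section

/-- points of the support of an image -/
theorem im_lift {W S : Sp} (q : Pj W S) (E2 : ∀ k, (W.F k).Ω → Prop) (k : ℕ) (y : (S.F k).Ω)
    (hy : ((Sp.im q E2).F k).μ y ≠ 0) : ∃ ω, ((W.rest E2).F k).μ ω ≠ 0 ∧ q.π k ω = y :=
  (Sp.imq q E2).exists_lift k y hy

/-- coefficients of finitely many polynomials with tame coefficients -/
theorem coeff_bound {S : Sp} {m : ℕ} {σ : Type} (Ph : Fin m → MvPolynomial σ (TR S)) :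
    ∃ K : ℕ → ℝ, S.Sub K ∧ ∀ᶠ k in UF, ∀ y, (S.F k).μ y ≠ 0 → ∀ j a,
      |(MvPolynomial.map (TR.evh k y) (Ph j)).coeff a| ≤ K k := by
  classical
  have h1 : ∀ f : TR S, ∃ K : ℕ → ℝ, S.Sub K ∧ ∀ᶠ k in UF, ∀ y, (S.F k).μ y ≠ 0 → |TR.ev f k y| ≤ K k :=
    fun f => f.2
  choose K hK hb using h1
  obtain ⟨L, hL, hL'⟩ := exists_bound (W := S)
    (fun x : (Σ j : Fin m, (Ph j).support) => K ((Ph x.1).coeff x.2.1)) fun x => hK _
  refine ⟨L, hL, ?_⟩
  have h2 : ∀ᶠ k in UF, ∀ x : (Σ j : Fin m, (Ph j).support), ∀ y, (S.F k).μ y ≠ 0 →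
      |TR.ev ((Ph x.1).coeff x.2.1) k y| ≤ K ((Ph x.1).coeff x.2.1) k :=
    Filter.eventually_all.mpr fun x => hb _
  filter_upwards [h2, hL', hL.1] with k a1 a2 a3 y hy j a
  rw [MvPolynomial.coeff_map]
  by_cases h : a ∈ (Ph j).support
  · exact (a1 ⟨j, a, h⟩ y hy).trans (a2 ⟨j, a, h⟩)
  · rw [MvPolynomial.notMem_support_iff.mp h, map_zero, abs_zero]
    exact a3

theorem evh_eval {S : Sp} {m : ℕ} (k : ℕ) (y : (S.F k).Ω) (U : Fin m → TR S) (p : MvPolynomial (Fin m) (TR S)) :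
    TR.ev (MvPolynomial.eval U p) k y = MvPolynomial.eval (fun i => TR.ev (U i) k y) (MvPolynomial.map (TR.evh k y) p) := by
  rw [MvPolynomial.eval_map]
  exact MvPolynomial.eval₂_comp_left (TR.evh k y) (RingHom.id (TR S)) U p

section frame

variable {M : ℕ} {w : Fin (M + 1) → ℝ} {W S : Sp} {e0 : ℝ} {he0 : 0 < e0} (p : Pj W (S.chg S.tr e0 he0))

/-- the label of the box in the image space -/
abbrev lbV {κ : ℕ → Type} (V : ∀ k, (S.F k).Ω → κ k) (E2 : ∀ k, ((W.chg W.tr e0⁻¹ (inv_pos.mpr he0)).F k).Ω → Prop) :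
    Lab (Sp.im (unz p) E2) := Lab.ofZ (S := Sp.im (unz p) E2) (fun k => Setoid.ker (V k))

/-- THE FRAME -/
theorem exists_frm {s : ℝ} (hs : 0 < s) (Q : S.VV (M + 1)) {κ : ℕ → Type} (V : ∀ k, (S.F k).Ω → κ k)
    (Ph : Fin (M + 1) → MvPolynomial (Fin (M + 1)) (TR S)) (U : Fin (M + 1) → TR S)
    (htri : ∀ j, ∀ i ∈ (Ph j).vars, i < j) (hred : ∀ j a, (Ph j).coeff a ≠ 0 → a ≠ 0 → wgt w a < w j)
    (hlit : ∀ k y y', cls V k y y' → ∀ j,
      MvPolynomial.map (TR.evh k y) (Ph j) = MvPolynomial.map (TR.evh k y') (Ph j))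
    (hU : ∀ j, TR.cor Q j = MvPolynomial.eval U (Ph j) + U j)
    {E2 : ∀ k, (W.F k).Ω → Prop} (hE2 : 0 < ul (W.pr E2)) {K : ℕ → ℝ} (hK : W.Sub K)
    (hb : ∀ᶠ k in UF, ∀ ω, (W.F k).μ ω ≠ 0 → E2 k ω → ∀ a, |TR.ev (ptr p (U a)) k ω| ≤ K k * W.dl (w a * s) k) :
    ∃ f : Frm (Q.im (unz p) E2) (lbV p V E2) (fun j => w j * (e0 * s)),
      ∀ k (y : (S.F k).Ω) a, f.X.v k y a = TR.ev (U a) k y / S.dl (w a * (e0 * s)) k := by
  have hc0 : 0 < e0 * s := mul_pos he0 hs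
  have hX : ∃ C : ℕ → ℝ, S.Sub C ∧ ∀ᶠ k in UF, ∀ y : (S.F k).Ω, ((Sp.im (unz p) E2).F k).μ y ≠ 0 → ∀ i,
      |TR.ev (U i) k y / S.dl (w i * (e0 * s)) k| ≤ C k := by
    refine ⟨K, sub_unz p hK, ?_⟩
    filter_upwards [hb, Pool.Agent.Helper33.MIX.supp_rest' (S := W) hE2] with k hk hk' y hy i
    obtain ⟨ω, hω, rfl⟩ := im_lift (unz p) E2 k y hy
    obtain ⟨a1, a2⟩ := hk' ω hω
    have h1 := hk ω a1 a2 i
    rw [dl_unz p] at h1
    have h2 : e0 * (w i * s) = w i * (e0 * s) := by ring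
    rw [h2] at h1
    have hd := S.dl_pos (w i * (e0 * s)) k
    rw [abs_div, abs_of_pos hd, div_le_iff₀ hd]
    exact h1
  obtain ⟨C, hC, hC'⟩ := hX
  obtain ⟨L, hL, hL'⟩ := coeff_bound Ph
  have hXb : ∀ᶠ k in UF, ∀ y : (S.F k).Ω, (((lbV p V E2).sp).F k).μ y ≠ 0 → ∀ i : Fin (M + 1),
      |TR.ev (U i) k y / S.dl (w i * (e0 * s)) k| ≤ C k := hC'
  refine ⟨
    { X := ⟨fun k y a => TR.ev (U a) k y / S.dl (w a * (e0 * s)) k, C, hC, hXb⟩
      P := fun k y j => MvPolynomial.map (TR.evh (S := S) k y) (Ph j)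
      tri := fun k y j i hi => htri j i (MvPolynomial.vars_map (Ph j) (TR.evh (S := S) k y) hi)
      red := ?_
      fn := ?_
      bd := ?_
      pt := ?_ }, fun k y a => rfl⟩
  · intro k y j a ha ha0
    have h1 : (Ph j).coeff a ≠ 0 := by
      intro h
      rw [MvPolynomial.mem_support_iff, MvPolynomial.coeff_map, h, map_zero] at ha
      exact ha rfl
    have h2 := hred j a h1 ha0
    have h3 : ∑ i, (a i : ℝ) * (w i * (e0 * s)) = wgt w a * (e0 * s) := by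
      unfold wgt
      rw [Finset.sum_mul]
      exact Finset.sum_congr rfl fun i _ => by ring
    rw [h3]
    exact mul_lt_mul_of_pos_right h2 hc0
  · refine Eventually.of_forall fun k y y' _ _ hZ hV => ?_
    have h1 : cls V k y y' := ⟨hZ, hV⟩
    exact funext fun j => hlit k y y' h1 j
  · refine ⟨L, hL, ?_⟩
    filter_upwards [hL'] with k hk y hy j a
    exact hk y (FSp.im_supp ((unz p).fp k) (E2 k) y hy) j a
  · have h1 : ∀ (k : ℕ) (y : (S.F k).Ω) (j : Fin (M + 1)), Q.v k y j = MvPolynomial.eval (fun i => TR.ev (U i) k y)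
        (MvPolynomial.map (TR.evh k y) (Ph j)) + TR.ev (U j) k y := by
      intro k y j
      rw [← evh_eval, ← TR.ev_add, ← hU j]
      rfl
    refine ⟨fun _ => 0, (Sp.im (unz p) E2).Sub_const le_rfl, Eventually.of_forall fun k y _ j => ?_⟩
    have h2 : ∀ i, S.dl (w i * (e0 * s)) k * (TR.ev (S := S) (U i) k y / S.dl (w i * (e0 * s)) k) =
        TR.ev (S := S) (U i) k y := by
      intro i
      rw [mul_div_cancel₀ _ (S.dl_pos _ _).ne']
    rw [zero_mul]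
    apply le_of_eq
    rw [abs_eq_zero, sub_eq_zero]
    show Q.v k y j = MvPolynomial.eval (fun i => S.dl (w i * (e0 * s)) k *
      (TR.ev (S := S) (U i) k y / S.dl (w i * (e0 * s)) k)) (MvPolynomial.map (TR.evh (S := S) k y) (Ph j)) +
      S.dl (w j * (e0 * s)) k * (TR.ev (S := S) (U j) k y / S.dl (w j * (e0 * s)) k)
    rw [h2 j, funext h2]
    exact h1 k y j

end frame

end

end Pool.Agent.Helper62.BLD
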