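import Pool.Agent.Helper62.BLD.Frx
import Pool.Agent.Helper33.LIT.Frm
import Pool.Agent.Helper33.LIT.Kap

/-! Row VWZ, part 5: a label without leaks which has the information of the box is the box (maximal). -/

set_option autoImplicit false

namespace Pool.Agent.Helper62.BLD

open Finset Filter Topology Pool.Agent.Helper69.RK Pool.Agent.Helper31.EC Pool.Agent.Helper31.EC.Sp
open Pool.Agent.Helper31.EC.QS Pool.Agent.Helper40.EL Pool.Agent.Helper13.AM Pool.Agent.Helper10.BLD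
open Pool.Agent.Helper84.MT Pool.Agent.Helper36.AM
open Pool.Agent.Helper33.LIT (exists_lit hom_num hom_num0 kap_pt)

noncomputable section

theorem ofZ_info {S : Sp} (Z : ∀ k, Setoid (S.F k).Ω) (k : ℕ) : ((Lab.ofZ Z) k).info = H (fc (Z k)) := by
  rw [← FLab.leak_bot]
  exact (Lab.ofZ_leak Z (fun _ => ⊥) k).trans (h_bot _)

/-- the information of the box of the window `c` of a member -/
theorem kap_info {M : ℕ} {Cl : MCl (M + 1)} {g r : ℕ} {w : Fin (M + 1) → ℝ} {ρ : ℝ}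
    {TT : ∀ S : Sp, MSys S (M + 1) (lin g) (Fin r) → Prop} (hT : Hom M Cl g r w ρ TT) {S : Sp}
    {s : MSys S (M + 1) (lin g) (Fin r)} (hs : TT S s) {c : ℝ} (h0 : 0 ≤ c) (h1 : w (Fin.last M) * c < 1)
    {Z : ∀ k, Setoid (S.F k).Ω} (hZ : s.IsKap c (Lab.ofZ Z)) :
    (Lab.ofZ Z).info = (∑ j : Fin M, w j.castSucc + (1 - ρ) * w (Fin.last M)) * c := by
  have a1 := hom_num hT hs h0 h1 h1.le le_rfl le_rfl hZ
  have a2 := hom_num0 hT hs (b := 1) (a := 1) zero_le_one le_rfl le_rfl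
  have a3 : Nul S (fun k => h (fc (Z k)) (cel2 s.Q (Fin.last M) 1 1 k)) := by
    refine (kap_pt hZ).of_le (Eventually.of_forall fun k => h_nonneg _ _) (Eventually.of_forall fun k => ?_)
    apply h_anti
    exact fc_mono inf_le_left
  have a4 := (a2.sub a1).add a3
  have e1 : (M : ℝ) * 1 + (1 - ρ) * 1 - (∑ j : Fin M, (1 - w j.castSucc * c) + (1 - ρ) * (1 - w (Fin.last M) * c)) + 0
      = (∑ j : Fin M, w j.castSucc + (1 - ρ) * w (Fin.last M)) * c := by
    rw [Finset.sum_sub_distrib, Finset.sum_const, Finset.card_univ, Fintype.card_fin, nsmul_eq_mul,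
      ← Finset.sum_mul]
    ring
  rw [e1] at a4
  have e2 : ∀ k, H (cel2 s.Q (Fin.last M) 1 1 k) / (S.F k).n - h (cel2 s.Q (Fin.last M) 1 1 k) (fc (Z k)) / (S.F k).n +
      h (fc (Z k)) (cel2 s.Q (Fin.last M) 1 1 k) / (S.F k).n = ((Lab.ofZ Z) k).info / (S.F k).n := by
    intro k
    rw [ofZ_info, ← sub_div, ← add_div]
    congr 1
    unfold h
    rw [sup_comm (fc (Z k))]
    ring
  exact ul_eq (a4.congr e2)

/-- a label without leaks with the information of the box is the box -/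
theorem kap_of_info {M : ℕ} {Cl : MCl (M + 1)} {g r : ℕ} {w : Fin (M + 1) → ℝ} {ρ : ℝ}
    {TT : ∀ S : Sp, MSys S (M + 1) (lin g) (Fin r) → Prop} (hT : Hom M Cl g r w ρ TT) {S : Sp}
    {s : MSys S (M + 1) (lin g) (Fin r)} (hs : TT S s) {c : ℝ} (h0 : 0 ≤ c) (h1 : w (Fin.last M) * c < 1)
    {l : Lab S} (hl : s.DMc c l) (hi : (∑ j : Fin M, w j.castSucc + (1 - ρ) * w (Fin.last M)) * c ≤ l.info) :
    s.IsKap c l := by
  obtain ⟨Z, hZ⟩ := exists_lit s c
  refine ⟨hl, fun l' hl' => (hZ.2 l' hl').trans ?_⟩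
  rw [kap_info hT hs h0 h1 hZ]
  exact hi

section info

variable {d N r' : ℕ} {T S : Sp} {E : ∀ k, (T.F k).Ω → Prop}
  {hE : 0 < ul (T.pr E)} {e0 : ℝ} {he0 : 0 < e0} (p : Pj (T.rest E) (S.chg S.tr e0 he0))

/-- the information of the label of the box in the image space -/
theorem info_lbV {β κ : ℕ → Type} {VK : ∀ k, (T.F k).Ω → β k} {V : ∀ k, (S.F k).Ω → κ k}
    (hV : ∀ k ω ω', ((T.rest E).F k).μ ω ≠ 0 → ((T.rest E).F k).μ ω' ≠ 0 → ((T.rest E).F k).Z ω ω' →
      (VK k ω = VK k ω' ↔ V k (p.π k ω) = V k (p.π k ω')))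
    (hB : Bdd VK) (E2 : ∀ k, ((T.rest E).F k).Ω → Prop) (hE2 : 0 < ul ((T.rest E).pr E2)) :
    (lbV p V E2).info = e0 * H (restL (S := T.rest E) E2 hE2 (restL E hE (io VK))) := by
  have hB1 : Bdd (S := T.rest E) VK := rest_VB E hB
  have hB2 : Bdd (S := (T.rest E).rest E2) VK := rest_VB (S := T.rest E) E2 hB1
  rw [restL_io E hE hB, restL_io (S := T.rest E) E2 hE2 hB1, io_eq hB2, H_cl]
  have key : ∀ k, (lbV p V E2 k).info / ((Sp.im (unz p) E2).F k).n =
      e0 * ((T.rest E).rest E2).rt hB2.toInf.1 ((T.rest E).rest E2).tr k := by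
    intro k
    rw [ofZ_info]
    have h1 : H ((FSp.imp ((unz p).fp k) (E2 k)).map (fc (F := FSp.im ((unz p).fp k) (E2 k)) (Setoid.ker (V k)))) =
        H (fc (F := FSp.im ((unz p).fp k) (E2 k)) (Setoid.ker (V k))) := FPj.H_map _ _
    have h2 : (FSp.imp ((unz p).fp k) (E2 k)).map (fc (F := FSp.im ((unz p).fp k) (E2 k)) (Setoid.ker (V k))) =
        fc (F := (((T.rest E).F k).rest (E2 k)).chg ⊤ e0⁻¹ (inv_pos.mpr he0)) (Setoid.ker (VK k)) := by
      apply le_antisymm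
      · apply fc_le
        intro ω ω' a b hZ hab
        have a1 := (((T.rest E).F k).rest_supp (E2 k) ω a).1
        have b1 := (((T.rest E).F k).rest_supp (E2 k) ω' b).1
        exact (hV k ω ω' a1 b1 hZ.2).1 hab
      · apply fc_le
        intro ω ω' a b hZ hab
        have a1 := (((T.rest E).F k).rest_supp (E2 k) ω a).1
        have b1 := (((T.rest E).F k).rest_supp (E2 k) ω' b).1
        exact (hV k ω ω' a1 b1 hZ.2).2 hab
    have h3 : H (fc (F := (((T.rest E).F k).rest (E2 k)).chg ⊤ e0⁻¹ (inv_pos.mpr he0)) (Setoid.ker (VK k))) =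
        H (fc (F := ((T.rest E).F k).rest (E2 k)) (Setoid.ker (VK k))) := by
      have h4 := h_chg_top (F := ((T.rest E).F k).rest (E2 k)) e0⁻¹ (inv_pos.mpr he0) (Setoid.ker (VK k)) ⊤
      rw [fc_top, h_bot] at h4
      have h5 : (fc (F := (((T.rest E).F k).rest (E2 k)).chg ⊤ e0⁻¹ (inv_pos.mpr he0)) ⊤) = ⊥ := rfl
      rw [← h4]
      exact (h_bot _).symm
    have h6 : H (fc (F := FSp.im ((unz p).fp k) (E2 k)) (Setoid.ker (V k))) =
        H (fc (F := ((T.rest E).F k).rest (E2 k)) (Setoid.ker (VK k))) :=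
      h1.symm.trans ((congrArg H h2).trans h3)
    have h7 : H (fc (F := ((T.rest E).F k).rest (E2 k)) (Setoid.ker (VK k))) / (((T.rest E).rest E2).F k).n =
        ((T.rest E).rest E2).rt hB2.toInf.1 ((T.rest E).rest E2).tr k := H_rpI hB2.toInf k
    rw [← h7]
    have h8 : (((T.rest E).rest E2).F k).n = e0 * ((Sp.im (unz p) E2).F k).n := p.hn k
    rw [h8]
    have h9 := ((Sp.im (unz p) E2).F k).pos
    have h10 : H (fc (F := (Sp.im (unz p) E2).F k) (Setoid.ker (V k))) =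
        H (fc (F := ((T.rest E).F k).rest (E2 k)) (Setoid.ker (VK k))) := h6
    rw [h10]
    field_simp
  have h1 : (lbV p V E2).info = ul (fun k => e0 * ((T.rest E).rest E2).rt hB2.toInf.1 ((T.rest E).rest E2).tr k) := by
    unfold Lab.info
    congr 1
    exact funext key
  rw [h1, ul_const_mul _ (UB_rt _ _)]

end info

end

end Pool.Agent.Helper62.BLD
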