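import Pool.Agent.Helper57.TA.Clo

/-! Row VWZ, part 1: triangular systems of polynomial equations; weighted degrees of substitutions. -/

set_option autoImplicit false

namespace Pool.Agent.Helper62.BLD

open Finset MvPolynomial
open Pool.Agent.Helper57.TA (wgt wgt_add eval_sbs map_sbs)

section tri

variable {A B : Type*} [CommRing A] [CommRing B] {m : ℕ}

theorem eval_congr_vars {σ : Type*} {p : MvPolynomial σ A} {x y : σ → A} (h : ∀ i ∈ p.vars, x i = y i) :
    eval x p = eval y p :=
  eval₂Hom_congr' rfl (fun i h1 _ => h i h1) rfl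

/-- triangular systems have solutions -/
theorem exists_tri (P : Fin m → MvPolynomial (Fin m) A) (htri : ∀ j, ∀ i ∈ (P j).vars, i < j) (x : Fin m → A) :
    ∃ U : Fin m → A, ∀ j, x j = eval U (P j) + U j := by
  have key : ∀ n : ℕ, n ≤ m → ∃ U : Fin m → A, ∀ j : Fin m, (j : ℕ) < n → x j = eval U (P j) + U j := by
    intro n
    induction n with
    | zero => exact fun _ => ⟨fun _ => 0, fun j h => absurd h (Nat.not_lt_zero _)⟩
    | succ n ih =>
      intro hn
      obtain ⟨U, hU⟩ := ih (by omega)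
      set k : Fin m := ⟨n, by omega⟩ with hk
      refine ⟨Function.update U k (x k - eval U (P k)), fun j hj => ?_⟩
      have h1 : eval (Function.update U k (x k - eval U (P k))) (P j) = eval U (P j) := by
        apply eval_congr_vars
        intro i hi
        have h2 := htri j i hi
        rw [Function.update_of_ne]
        rintro rfl
        have h3 : (k : ℕ) < j := h2
        have h4 : (k : ℕ) = n := rfl
        omega
      rw [h1]
      rcases Nat.lt_or_ge (j : ℕ) n with h2 | h2
      · rw [Function.update_of_ne, ← hU j h2]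
        rintro rfl
        exact absurd h2 (lt_irrefl n)
      · have h3 : j = k := Fin.ext (le_antisymm (Nat.lt_succ_iff.mp hj) h2)
        rw [h3, Function.update_self]
        ring
  obtain ⟨U, hU⟩ := key m le_rfl
  exact ⟨U, fun j => hU j j.2⟩

/-- solutions of triangular systems are unique, also after a homomorphism -/
theorem tri_unique (P : Fin m → MvPolynomial (Fin m) A) (htri : ∀ j, ∀ i ∈ (P j).vars, i < j) (ψ : A →+* B)
    {x U : Fin m → A} (hU : ∀ j, x j = eval U (P j) + U j) {y : Fin m → B}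
    (hy : ∀ j, ψ (x j) = eval y (map ψ (P j)) + y j) : ∀ j, ψ (U j) = y j := by
  have key : ∀ n : ℕ, ∀ j : Fin m, (j : ℕ) < n → ψ (U j) = y j := by
    intro n
    induction n with
    | zero => exact fun j h => absurd h (Nat.not_lt_zero _)
    | succ n ih =>
      intro j hj
      have h1 : ψ (eval U (P j)) = eval y (map ψ (P j)) := by
        have h0 : ψ (eval U (P j)) = eval (fun i => ψ (U i)) (map ψ (P j)) := by
          rw [eval_map]
          exact eval₂_comp_left ψ (RingHom.id A) U (P j)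
        rw [h0]
        apply eval_congr_vars
        intro i hi
        have h2 := htri j i (vars_map (P j) ψ hi)
        have h3 : (i : ℕ) < j := h2
        exact ih i (by omega)
      have h2 := hy j
      rw [hU j, map_add, h1] at h2
      exact add_left_cancel h2
  exact fun j => key _ j (Nat.lt_succ_self _)

end tri

section wd

variable {A : Type*} [CommRing A] {σ τ : Type} [Fintype σ] [Fintype τ]

/-- weighted degree at most `W` -/
def WD (w : σ → ℝ) (W : ℝ) (p : MvPolynomial σ A) : Prop := ∀ a, p.coeff a ≠ 0 → wgt w a ≤ W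

theorem wgt_zero' (w : σ → ℝ) : wgt w (0 : σ →₀ ℕ) = 0 := by
  unfold wgt
  simp

theorem WD.mul {w : σ → ℝ} {W W' : ℝ} {p q : MvPolynomial σ A} (hp : WD w W p) (hq : WD w W' q) :
    WD w (W + W') (p * q) := by
  classical
  intro a ha
  have h1 := support_mul p q (mem_support_iff.mpr ha)
  obtain ⟨b, hb, c, hc, rfl⟩ := Finset.mem_add.mp h1
  rw [Pool.Agent.Helper57.TA.wgt_add]
  exact add_le_add (hp b (mem_support_iff.mp hb)) (hq c (mem_support_iff.mp hc))

theorem WD_C (w : σ → ℝ) (x : A) : WD w 0 (C x : MvPolynomial σ A) := by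
  classical
  intro a ha
  rw [coeff_C] at ha
  split_ifs at ha with h
  · rw [← h, wgt_zero']
  · exact absurd rfl ha

theorem WD_X (w : σ → ℝ) (i : σ) : WD w (w i) (X i : MvPolynomial σ A) := by
  classical
  intro a ha
  rw [coeff_X'] at ha
  split_ifs at ha with h
  · rw [← h, Pool.Agent.Helper57.TA.wgt_single]
  · exact absurd rfl ha

theorem WD.mono {w : σ → ℝ} {W W' : ℝ} {p : MvPolynomial σ A} (hp : WD w W p) (h : W ≤ W') : WD w W' p :=
  fun a ha => (hp a ha).trans h

theorem WD.sum {w : σ → ℝ} {W : ℝ} {κ : Type*} (s : Finset κ) {f : κ → MvPolynomial σ A}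
    (h : ∀ i ∈ s, WD w W (f i)) : WD w W (∑ i ∈ s, f i) := by
  classical
  intro a ha
  rw [coeff_sum] at ha
  obtain ⟨i, hi, h1⟩ := Finset.exists_ne_zero_of_sum_ne_zero ha
  exact h i hi a h1

theorem WD.pow {w : σ → ℝ} {W : ℝ} {p : MvPolynomial σ A} (hp : WD w W p) (n : ℕ) : WD w (n * W) (p ^ n) := by
  induction n with
  | zero =>
    rw [pow_zero, Nat.cast_zero, zero_mul, ← C_1]
    exact WD_C w 1
  | succ n ih =>
    rw [pow_succ]
    refine (ih.mul hp).mono (le_of_eq ?_)
    push_cast
    ring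

theorem WD.prod {w : σ → ℝ} {κ : Type*} (s : Finset κ) {f : κ → MvPolynomial σ A} {W : κ → ℝ}
    (h : ∀ i ∈ s, WD w (W i) (f i)) : WD w (∑ i ∈ s, W i) (∏ i ∈ s, f i) := by
  classical
  induction s using Finset.induction_on with
  | empty =>
    rw [Finset.sum_empty, Finset.prod_empty, ← C_1]
    exact WD_C w 1
  | insert a s ha ih =>
    rw [Finset.sum_insert ha, Finset.prod_insert ha]
    exact (h a (Finset.mem_insert_self a s)).mul (ih fun i hi => h i (Finset.mem_insert_of_mem hi))

/-- weighted degrees of substitutions -/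
theorem wd_sbs (F : MvPolynomial τ A) (φ : τ → MvPolynomial σ A) (w : σ → ℝ) (w' : τ → ℝ)
    (hφ : ∀ i, WD w (w' i) (φ i)) (a : σ →₀ ℕ) (ha : (aeval φ F).coeff a ≠ 0) :
    ∃ n, F.coeff n ≠ 0 ∧ wgt w a ≤ wgt w' n := by
  classical
  rw [aeval_def, eval₂_eq, coeff_sum] at ha
  obtain ⟨n, hn, h1⟩ := Finset.exists_ne_zero_of_sum_ne_zero ha
  refine ⟨n, mem_support_iff.mp hn, ?_⟩
  rw [algebraMap_eq] at h1
  have h2 : WD w (0 + ∑ i ∈ n.support, (n i : ℝ) * w' i) (C (F.coeff n) * ∏ i ∈ n.support, φ i ^ n i) :=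
    (WD_C w _).mul (WD.prod _ fun i _ => (hφ i).pow _)
  refine (h2 a h1).trans (le_of_eq ?_)
  rw [zero_add]
  unfold wgt
  apply Finset.sum_subset (Finset.subset_univ _)
  intro i _ hi
  rw [Finsupp.notMem_support_iff.mp hi, Nat.cast_zero, zero_mul]

/-- variables of substitutions -/
theorem vars_sbs (F : MvPolynomial τ A) (φ : τ → MvPolynomial σ A) {i : σ} (hi : i ∈ (aeval φ F).vars) :
    ∃ x, (∃ n, F.coeff n ≠ 0 ∧ n x ≠ 0) ∧ i ∈ (φ x).vars := by
  classical
  rw [aeval_def, eval₂_eq] at hi
  have h1 := vars_sum_subset _ _ hi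
  rw [Finset.mem_biUnion] at h1
  obtain ⟨n, hn, h2⟩ := h1
  have h3 := vars_mul _ _ h2
  rw [algebraMap_eq, vars_C, Finset.empty_union] at h3
  have h4 := vars_prod _ h3
  rw [Finset.mem_biUnion] at h4
  obtain ⟨x, hx, h5⟩ := h4
  exact ⟨x, ⟨n, mem_support_iff.mp hn, Finsupp.mem_support_iff.mp hx⟩, vars_pow _ _ h5⟩

end wd

end Pool.Agent.Helper62.BLD
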