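import Pool.Agent.Helper68.VW.Vwp
import Pool.Agent.Helper62.BLD.Des

/-! Row VWZ, part 6: knowledge between partitions in extensions, events, truncations and zooms. -/

set_option autoImplicit false

namespace Pool.Agent.Helper62.BLD

open Finset Filter Topology Pool.Agent.Helper69.RK Pool.Agent.Helper31.EC Pool.Agent.Helper31.EC.Sp
open Pool.Agent.Helper31.EC.QS Pool.Agent.Helper40.EL Pool.Agent.Helper84.MT Pool.Agent.Helper13.AM
open Pool.Agent.Helper68.VW (PLe_pull PLe_rest PLe_im PLe_evt)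

noncomputable section

/-- knowledge between partitions -/
def PS (W : Sp) (A B : ∀ k, Setoid (W.F k).Ω) : Prop := PLe (S := W) (fun k => fc (A k)) (fun k => fc (B k))

variable {W S T : Sp}

namespace PS

variable {A B C : ∀ k, Setoid (W.F k).Ω}

theorem trans (h : PS W A B) (h' : PS W B C) : PS W A C := PLe.trans h h'

theorem pull (p : Pj T W) (h : PS W A B) : PS T (fun k => Setoid.comap (p.π k) (A k)) (fun k => Setoid.comap (p.π k) (B k)) := by
  have h1 := PLe_pull p h
  exact h1

theorem of_pull (p : Pj T W)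
    (hAB : PS T (fun k => Setoid.comap (p.π k) (A k)) (fun k => Setoid.comap (p.π k) (B k))) : PS W A B := by
  have h1 : Nul W (fun k => h ((p.fp k).map (fc (A k))) ((p.fp k).map (fc (B k)))) := (Lab.nul_pj p).mp hAB
  refine h1.of_le (Eventually.of_forall fun _ => h_nonneg _ _) (Eventually.of_forall fun k => ?_)
  exact ((p.fp k).h_map (fc (A k)) (fc (B k))).ge

theorem rest (E : ∀ k, (W.F k).Ω → Prop) (hE : 0 < ul (W.pr E)) (h : PS W A B) : PS (W.rest E) A B := by
  have h1 := PLe_rest E hE h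
  exact h1

theorem im (p : Pj T W) (E : ∀ k, (T.F k).Ω → Prop) (hE : 0 < ul (T.pr E)) (h : PS W A B) : PS (Sp.im p E) A B := by
  have h1 := PLe_im p E hE h
  exact h1

theorem trn {e : ℝ} {he : 0 < e} (hAB : PS W A B) : PS (W.chg W.tr e he) A B := by
  have h1 : Nul (W.chg W.tr e he) (fun k => h (fc (A k)) (fc (B k))) := Pool.Agent.Helper52.SL.nul_trn.mpr hAB
  refine h1.of_le (Eventually.of_forall fun _ => h_nonneg _ _) (Eventually.of_forall fun k => ?_)
  exact (h_chg_top e he (A k) (B k)).le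

theorem of_trn {e : ℝ} {he : 0 < e} (hAB : PS (W.chg W.tr e he) A B) : PS W A B := by
  have h1 := Pool.Agent.Helper52.SL.nul_trn.mp hAB
  refine h1.of_le (Eventually.of_forall fun _ => h_nonneg _ _) (Eventually.of_forall fun k => ?_)
  exact (h_chg_top e he (A k) (B k)).ge

theorem chg {e : ℝ} {he : 0 < e} (Z : ∀ k, Setoid (W.F k).Ω) (hAB : PS W A B) : PS (W.chg Z e he) A B := by
  have h1 : Nul (W.chg Z e he) (fun k => h (fc (A k)) (fc (B k))) := by
    have h2 := Tendsto.const_mul e⁻¹ hAB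
    rw [mul_zero] at h2
    refine h2.congr fun k => ?_
    show e⁻¹ * (h (fc (A k)) (fc (B k)) / (W.F k).n) = h (fc (A k)) (fc (B k)) / (e * (W.F k).n)
    rw [mul_comm e, ← div_div, div_eq_inv_mul _ e]
  refine h1.of_le (Eventually.of_forall fun _ => h_nonneg _ _) (Eventually.of_forall fun k => ?_)
  have h2 := (frb (W.F k) (Z k) e he).h_map (fc (A k)) (fc (B k))
  have h3 : h (fc (A k)) (fc (B k) ⊔ fc (Z k)) ≤ h (fc (A k)) (fc (B k)) := h_anti le_sup_left
  exact h2.trans_le h3

/-- knowledge on the support, given the base -/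
theorem of_supp (h : ∀ᶠ k in UF, ∀ ω ω', (W.F k).μ ω ≠ 0 → (W.F k).μ ω' ≠ 0 → (W.F k).Z ω ω' → B k ω ω' → A k ω ω') :
    PS W A B := by
  apply PLe_evt
  filter_upwards [h] with k hk
  exact fc_le hk

end PS

end

end Pool.Agent.Helper62.BLD
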