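import Pool.Agent.Helper62.BLD.Kap
import Pool.Agent.Helper62.BLD.Ps
import Pool.Agent.Helper99.BLD.Vwt

/-! Row VWZ, part 7: the zoom of the space of the corner, on an event, extends the zoom of the space of the member. -/

set_option autoImplicit false

namespace Pool.Agent.Helper62.BLD

open Finset Filter Topology Pool.Agent.Helper69.RK Pool.Agent.Helper31.EC Pool.Agent.Helper31.EC.Sp
open Pool.Agent.Helper31.EC.QS Pool.Agent.Helper40.EL Pool.Agent.Helper13.AM Pool.Agent.Helper10.BLD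
open Pool.Agent.Helper84.MT Pool.Agent.Helper36.AM
open Pool.Agent.Helper57.TA (sc scT wgt rcst ev_scT)
open Pool.Agent.Helper33.MIX (ev ev_pos ev_and)

noncomputable section

section pz

variable {T S : Sp} {E : ∀ k, (T.F k).Ω → Prop} {e0 : ℝ} {he0 : 0 < e0} (p : Pj (T.rest E) (S.chg S.tr e0 he0))
  {β κ : ℕ → Type} {VK : ∀ k, (T.F k).Ω → β k} (V : ∀ k, (S.F k).Ω → κ k)
  (E2 : ∀ k, ((T.rest E).F k).Ω → Prop)
  {Z : ∀ k, Setoid (T.F k).Ω} {e e1 e' : ℝ} (he : 0 < e) (he1 : 0 < e1) (he' : 0 < e')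

/-- the space of the zoomed member -/
abbrev Sz : Sp := (lbV p V E2).ovr e1 he1

/-- the weights of the double restriction -/
theorem mu_pz (k : ℕ) : (((T.chg Z e he).rest (ev (S := T) E E2)).F k).μ = (((T.rest E).rest E2).F k).μ :=
  (Pool.Agent.Helper33.MIX.rest_rest_weights (T.F k) (E k) (E2 k)).symm

theorem pr_pz (A : ∀ k, (T.F k).Ω → Prop) :
    ((T.chg Z e he).rest (ev (S := T) E E2)).pr A = ((T.rest E).rest E2).pr A := by
  funext k
  show mass (res (((T.chg Z e he).rest (ev (S := T) E E2)).F k).μ (A k)) = mass (res (((T.rest E).rest E2).F k).μ (A k))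
  rw [mu_pz E2 he k]
  rfl

theorem supp_pz (k : ℕ) (ω : (T.F k).Ω) (h : (((T.chg Z e he).rest (ev (S := T) E E2)).F k).μ ω ≠ 0) :
    ((T.rest E).F k).μ ω ≠ 0 := by
  rw [mu_pz E2 he k] at h
  exact (((T.rest E).F k).rest_supp (E2 k) ω h).1

/-- THE PROJECTION -/
def pz (hV : ∀ k ω ω', ((T.rest E).F k).μ ω ≠ 0 → ((T.rest E).F k).μ ω' ≠ 0 → ((T.rest E).F k).Z ω ω' →
      (VK k ω = VK k ω' ↔ V k (p.π k ω) = V k (p.π k ω'))) (hZ : ∀ k, Z k = Setoid.ker (VK k))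
    (hee : e0 * e = e' * e1) :
    Pj ((T.chg Z e he).rest (ev (S := T) E E2)) ((Sz p V E2 he1).chg (Sz p V E2 he1).tr e' he') where
  π := p.π
  law := by
    intro k
    have h1 := mu_pz (Z := Z) E2 he k
    show push (p.π k) (((T.chg Z e he).rest (ev (S := T) E E2)).F k).μ = _
    rw [h1]
    rfl
  hZ := by
    intro k ω ω' a b
    have a1 := supp_pz E2 he k ω a
    have b1 := supp_pz E2 he k ω' b
    constructor
    · rintro ⟨h1, h2⟩
      have h3 : VK k ω = VK k ω' := by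
        have h4 : Z k ω ω' := h1
        rw [hZ k] at h4
        exact h4
      have h4 : ((T.rest E).F k).Z ω ω' := h2
      exact ⟨trivial, (hV k ω ω' a1 b1 h4).1 h3, ((p.hZ k ω ω' a1 b1).1 h4).2⟩
    · rintro ⟨-, h1, h2⟩
      have h4 : ((T.rest E).F k).Z ω ω' := (p.hZ k ω ω' a1 b1).2 ⟨trivial, h2⟩
      refine ⟨?_, h4⟩
      show Z k ω ω'
      rw [hZ k]
      exact (hV k ω ω' a1 b1 h4).2 h1
  hn := by
    intro k
    show e * (T.F k).n = e' * (e1 * (S.F k).n)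
    have h1 : (T.F k).n = e0 * (S.F k).n := p.hn k
    rw [h1, ← mul_assoc, ← mul_assoc, ← hee]
    ring

/-- typical events of the double restriction -/
theorem typ_pz (hE2 : 0 < ul ((T.rest E).pr E2)) {A : ∀ k, (T.F k).Ω → Prop} (hA : Typ (S := T.rest E) A) :
    Typ (S := (T.chg Z e he).rest (ev (S := T) E E2)) A := by
  rw [Typ_iff, pr_pz E2 he, ← Typ_iff]
  exact Pool.Agent.Helper25.EC.typ_rest (W := T.rest E) E2 hE2 hA

/-- the event is typical -/
theorem typ_ev (tE : Typ E) (tE2 : Typ (S := T.rest E) E2) : Typ (S := T.chg Z e he) (ev (S := T) E E2) := by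
  have hE := ul_pr_typ_pos E tE
  have hE2 := ul_pr_typ_pos (S := T.rest E) E2 tE2
  rw [Typ_iff] at tE tE2 ⊢
  have h1 : ∀ᶠ k in UF, T.pr E k * (T.rest E).pr E2 k = (T.chg Z e he).pr (ev (S := T) E E2) k := by
    filter_upwards [ev_and hE hE2] with k hk
    rw [← Pool.Agent.Helper33.MIX.pr_and E E2 k]
    show (T.F k).pb (fun ω => E k ω ∧ E2 k ω) = (T.F k).pb (ev (S := T) E E2 k)
    rw [hk]
  have h2 := tE.mul tE2
  rw [mul_one] at h2
  exact h2.congr' h1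

/-- THE KEY: a coordinate of the zoomed member is the zoomed coordinate of the corner -/
theorem key_pz (hV : ∀ k ω ω', ((T.rest E).F k).μ ω ≠ 0 → ((T.rest E).F k).μ ω' ≠ 0 → ((T.rest E).F k).Z ω ω' →
      (VK k ω = VK k ω' ↔ V k (p.π k ω) = V k (p.π k ω'))) (hZ : ∀ k, Z k = Setoid.ker (VK k))
    (hee : e0 * e = e' * e1) (h1 : e ≤ 1) (h1' : e' ≤ 1) (hE : 0 < ul (T.pr E)) (hE2 : 0 < ul ((T.rest E).pr E2))
    (hE3 : 0 < ul ((T.chg Z e he).pr (ev (S := T) E E2))) {u : ℝ} (hu : 0 ≤ u) (hue : u + e ≤ 1) (h01 : e0 * e ≤ e1)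
    (U : TR S) (x : QS T) (hU : psi p U = QS.rest E hE (sc T u * x)) (Qv : TR (Sz p V E2 he1))
    (hQ : ∃ K : ℕ → ℝ, S.Sub K ∧ ∀ᶠ k in UF, ∀ y : (S.F k).Ω, (((lbV p V E2).sp).F k).μ y ≠ 0 →
      |TR.ev Qv k y - TR.ev U k y / S.dl (e0 * u) k| ≤ K k * S.dl e1 k) :
    QS.rest (S := T.chg Z e he) (ev (S := T) E E2) hE3 (cQ Z e he h1 x) =
      (pz p V E2 he he1 he' hV hZ hee).qs (cQ (Sz p V E2 he1).tr e' he' h1' (QS.mk Qv)) := by
  obtain ⟨x, rfl⟩ := QS.mk_surj x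
  have hU1 : QS.mk (ptr p U) = QS.mk (TR.rest E (scT T u * x)) := hU
  rw [QS.mk_eq] at hU1
  obtain ⟨A, K, hA, hK, hb⟩ := hU1
  obtain ⟨K', hK', hb'⟩ := hQ
  have e2 : QS.rest (S := T.chg Z e he) (ev (S := T) E E2) hE3 (cQ Z e he h1 (QS.mk x)) =
      QS.mk (TR.rest (S := T.chg Z e he) (ev (S := T) E E2) (cT Z e he x)) := rfl
  have e3 : (pz p V E2 he he1 he' hV hZ hee).qs (cQ (Sz p V E2 he1).tr e' he' h1' (QS.mk Qv)) =
      QS.mk ((pz p V E2 he he1 he' hV hZ hee).tr (cT (Sz p V E2 he1).tr e' he' Qv)) := rfl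
  rw [e2, e3, QS.mk_eq]
  have hKT : T.Sub K := ⟨hK.1, hK.2⟩
  have hK'T : T.Sub K' := by
    have h2 := sub_unz' p hK'
    exact ⟨h2.1, h2.2⟩
  refine ⟨A, fun k => K' k + K k, typ_pz E2 he hE2 hA, ?_, ?_⟩
  · have h2 := chg_sub Z e he (hK'T.add hKT)
    exact ⟨h2.1, h2.2⟩
  · filter_upwards [hb, hb', hK.1, hK'.1] with k a1 a2 a3 a4 ω hω hAω
    have hω1 := supp_pz E2 he k ω hω
    have b1 := a1 ω hω1 hAω
    have hω2 : (((lbV p V E2).sp).F k).μ (p.π k ω) ≠ 0 := (pz p V E2 he he1 he' hV hZ hee).supp k ω hω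
    have b2 := a2 (p.π k ω) hω2
    have d1 : T.dl u k = S.dl (e0 * u) k := dl_unz p u k
    have d2 : T.dl e k = S.dl (e0 * e) k := dl_unz p e k
    have d3 : S.dl e1 k ≤ T.dl e k := by
      rw [d2]
      exact S.dl_anti h01 k
    have b3 : |TR.ev U k (p.π k ω) - T.dl u k * TR.ev x k ω| ≤ K k * T.dl 1 k := by
      have b4 : TR.ev (TR.rest E (scT T u * x)) k ω = T.dl u k * TR.ev x k ω := by
        show TR.ev (scT T u) k ω * TR.ev x k ω = _
        rw [ev_scT hu]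
      have b5 : |TR.ev (ptr p U) k ω - TR.ev (TR.rest E (scT T u * x)) k ω| ≤ K k * T.dl 1 k := b1
      rw [b4] at b5
      exact b5
    have hd := T.dl_pos u k
    rw [← d1] at b2
    have b6 : |TR.ev U k (p.π k ω) / T.dl u k - TR.ev x k ω| ≤ K k * T.dl e k := by
      have b7 : TR.ev U k (p.π k ω) / T.dl u k - TR.ev x k ω =
          (TR.ev U k (p.π k ω) - T.dl u k * TR.ev x k ω) / T.dl u k := by
        field_simp
      rw [b7, abs_div, abs_of_pos hd, div_le_iff₀ hd]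
      refine b3.trans ?_
      rw [mul_assoc, ← T.dl_add]
      exact mul_le_mul_of_nonneg_left (T.dl_anti (by linarith) k) a3
    show |TR.ev x k ω - TR.ev Qv k (p.π k ω)| ≤ (K' k + K k) * (T.chg Z e he).dl 1 k
    rw [chg_dl, mul_one, add_mul]
    have b8 : |TR.ev Qv k (p.π k ω) - TR.ev U k (p.π k ω) / T.dl u k| ≤ K' k * T.dl e k :=
      b2.trans (mul_le_mul_of_nonneg_left d3 a4)
    rw [abs_sub_comm]
    have b9 : TR.ev Qv k (p.π k ω) - TR.ev x k ω = (TR.ev Qv k (p.π k ω) - TR.ev U k (p.π k ω) / T.dl u k) +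
        (TR.ev U k (p.π k ω) / T.dl u k - TR.ev x k ω) := by ring
    rw [b9]
    exact (abs_add_le _ _).trans (add_le_add b8 b6)

end pz

end

end Pool.Agent.Helper62.BLD
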