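import Pool.Agent.Helper62.BLD.Pz

/-! Row VWZ, part 8: the labels of the zoomed member. -/

set_option autoImplicit false

namespace Pool.Agent.Helper62.BLD

open Finset Filter Topology Pool.Agent.Helper69.RK Pool.Agent.Helper31.EC Pool.Agent.Helper31.EC.Sp
open Pool.Agent.Helper31.EC.QS Pool.Agent.Helper40.EL Pool.Agent.Helper13.AM Pool.Agent.Helper10.BLD
open Pool.Agent.Helper84.MT Pool.Agent.Helper36.AM
open Pool.Agent.Helper57.TA (sc scT wgt rcst ev_scT)

noncomputable section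

section pt

variable {M d N : ℕ} {w : Fin (M + 1) → ℝ} (P : Spl w d N) {W S : Sp} {e : ℝ} {he : 0 < e} (h1 : e ≤ 1)
  (p : Pj W (S.chg S.tr e he))

set_option maxHeartbeats 400000 in
/-- a box which is a function of the point of the corner is a function of the point of the member -/
theorem dmc_pt (A : Matrix (Fin (d + 1)) (Fin (d + 1)) ℝ) (Q : S.VV (M + 1)) (cq : Fin (d + 1) → QS W)
    (cR : Fin N → QS W) (hq : ∀ i, cq i = p.qs (cQ S.tr e he h1 (qA P A Q i)))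
    (hR : ∀ j, cR j = p.qs (cQ S.tr e he h1 (Rv P Q j))) {β κ : ℕ → Type} (VK : ∀ k, (W.F k).Ω → β k)
    (V : ∀ k, (S.F k).Ω → κ k) (hB : Bdd VK)
    (hV : ∀ k ω ω', (W.F k).μ ω ≠ 0 → (W.F k).μ ω' ≠ 0 → (W.F k).Z ω ω' →
      (VK k ω = VK k ω' ↔ V k (p.π k ω) = V k (p.π k ω')))
    (hle : io VK ≤ vd cq 1 ⊔ vd cR 1) : PLe (S := S) (fun k => fc (Setoid.ker (V k))) (pcd Q) := by
  have hB2 : Bdd (S := W) (fun k ω => V k (p.π k ω)) :=
    Bdd.of_fun hB (Eventually.of_forall fun k ω ω' h h' hZ => (hV k ω ω' h h' hZ).mp)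
  have hB3 : Bdd (S := S.chg S.tr e he) V := (p.bdd_iff V).mp hB2
  have hB4 : Bdd (S := S) V := un_VB e he hB3
  have hK : io VK = p.map (chgL S.tr e he (io V)) := by
    have a1 : chgL S.tr e he (io V) = io (S := S.chg S.tr e he) V := chgL_io _ _ _ hB4
    have a2 : p.map (io (S := S.chg S.tr e he) V) = io (S := W) (fun k ω => V k (p.π k ω)) := p.map_io _
    have a3 : io VK = io (S := W) (fun k ω => V k (p.π k ω)) := by
      apply le_antisymm
      · exact io_le_of_fun hB2 (Eventually.of_forall fun k ω ω' h h' hZ => (hV k ω ω' h h' hZ).mpr)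
      · exact io_le_of_fun hB (Eventually.of_forall fun k ω ω' h h' hZ => (hV k ω ω' h h' hZ).mp)
    exact a3.trans (a2.symm.trans (congrArg p.map a1.symm))
  have e1 : vd cq 1 = p.map (chgL S.tr e he (vd (qA P A Q) e)) := by
    have a1 := cQ_vd S.tr e he h1 (qA P A Q) (le_refl (1 : ℝ))
    rw [mul_one] at a1
    rw [← a1, ← p.qs_vd]
    congr 1
    funext i
    exact hq i
  have e2 : vd cR 1 = p.map (chgL S.tr e he (vd (Rv P Q) e)) := by
    have a1 := cQ_vd S.tr e he h1 (Rv P Q) (le_refl (1 : ℝ))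
    rw [mul_one] at a1
    rw [← a1, ← p.qs_vd]
    congr 1
    funext i
    exact hR i
  have e3 : io V ≤ vd (qA P A Q) e ⊔ vd (Rv P Q) e := by
    rw [hK, e1, e2, ← p.map_sup, ← h_eq_zero_iff, p.h_map, ← chgL_sup] at hle
    have a2 : Pool.Agent.Helper31.EC.h (chgL S.tr e he (io V)) (chgL S.tr e he (vd (qA P A Q) e ⊔ vd (Rv P Q) e)) =
        Pool.Agent.Helper31.EC.h (io V) (vd (qA P A Q) e ⊔ vd (Rv P Q) e) / e := Pool.Agent.Helper38.NS.dL_h e he _ _
    rw [a2, div_eq_zero_iff, or_iff_left he.ne'] at hle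
    exact h_eq_zero_iff.mp hle
  have e4 : ∀ a, dg (qc Q a) e ≤ Q.dg 1 := by
    intro a
    rw [Pool.Agent.Helper99.BLD.dg_qc Q a h1]
    refine (TR.cor_dg_le Q a e).trans ?_
    exact Q.dg_mono h1
  have e5 : io V ≤ Q.dg 1 := by
    refine e3.trans (sup_le ?_ ?_)
    · have a1 : vd (qA P A Q) e ≤ vd (fun j => qc Q (P.bI j)) e := Pool.Agent.Helper99.BLD.vd_lin A _ h1
      refine a1.trans ?_
      rw [vd_le]
      exact fun j => e4 _
    · rw [vd_le]
      exact fun j => e4 _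
  have e6 : Q.dg 1 = cl (Q.bdd 1).toInf := io_eq (Q.bdd 1)
  rw [io_eq hB4, e6] at e5
  have e7 : PLe (rpI hB4.toInf) (rpI (Q.bdd 1).toInf) := PLe_rpI.mpr e5
  exact e7

end pt

section win

variable {T S : Sp} {M : ℕ} {X : ℕ → ℕ} {ι : Type}

/-- a label of a window on an event, over a label -/
theorem dmc_win (p : Pj T S) (A : ∀ k, (T.F k).Ω → Prop) (hA : 0 < ul (T.pr A)) {t : MSys S M X ι} {c : ℝ}
    {Z : ∀ k, Setoid (S.F k).Ω} (hd : t.DMc c (Lab.ofZ Z)) (Y : ∀ k, Setoid ((Sp.im p A).F k).Ω) {e1 : ℝ}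
    (he1 : 0 < e1) (i : ι) {B : Part ((Lab.ofZ Y).ovr e1 he1)}
    (hB : PLe ((Lab.ofZ Y).up e1 he1 (((t.im p A hA).lf i).win c)) B) :
    PLe (S := (Lab.ofZ Y).ovr e1 he1) (fun k => fc (F := ((Lab.ofZ Y).ovr e1 he1).F k) (Z k)) B := by
  have h2 := Pool.Agent.Helper68.VW.DMc_im p A hA hd
  have h3 : PLe (pof (S := Sp.im p A) Z) (((t.im p A hA).lf i).win c) :=
    (Lab.ofZ_DMf (S := Sp.im p A) Z).mp h2 (some i)
  have h4 := Lab.PLe_up (l := Lab.ofZ Y) (c := e1) (hc := he1) h3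
  exact h4.trans hB

end win

end

end Pool.Agent.Helper62.BLD
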