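import Pool.Agent.Helper62.BLD.Vd
import Pool.Agent.Helper68.VW.Z0

/-! Row VWZ, part 9: the link of the types of the zoomed member. -/

set_option autoImplicit false

namespace Pool.Agent.Helper62.BLD

open Finset Filter Topology Pool.Agent.Helper69.RK Pool.Agent.Helper31.EC Pool.Agent.Helper31.EC.Sp
open Pool.Agent.Helper31.EC.QS Pool.Agent.Helper40.EL Pool.Agent.Helper13.AM Pool.Agent.Helper10.BLD
open Pool.Agent.Helper84.MT Pool.Agent.Helper36.AM
open Pool.Agent.Helper57.TA (sc scT wgt rcst ev_scT)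
open Pool.Agent.Helper33.MIX (ev ev_pos ev_and rrj)
open Pool.Agent.Helper68.VW (PLe_pull PLe_rest PLe_chgP chgP rp_cl_le)

noncomputable section

section win

variable {W S : Sp} {e0 : ℝ} {he0 : 0 < e0} (h01 : e0 ≤ 1) {M g r : ℕ}

/-- windows of views -/
theorem win_old (p : Pj W (S.chg S.tr e0 he0)) (t : MSys S (M + 1) (lin g) (Fin r)) (i0 : Fin r) (v : ℝ) :
    (((t.trn e0 he0 h01).pull p).lf i0).win v = fun k => fc (F := W.F k) (Setoid.comap (p.π k)
      ((t.lf i0).La k ⊓ Setoid.ker ((t.lf i0).Y.cellv (e0 * v) k))) := by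
  have a1 : (((t.trn e0 he0 h01).pull p).lf i0).win v = (((t.trn e0 he0 h01).lf i0).win v).pull p := win_pull _ _ v
  rw [a1]
  funext k
  have b1 : ((t.trn e0 he0 h01).lf i0).Y.cellv v k = (t.lf i0).Y.cellv (e0 * v) k :=
    Pool.Agent.Helper52.SL.cellv_chg (t.lf i0).Y e0 he0 v k
  have c1 : ((((t.trn e0 he0 h01).lf i0).win v).pull p) k =
      fc (F := W.F k) (Setoid.comap (p.π k) ((t.lf i0).La k ⊓
        Setoid.ker (((t.trn e0 he0 h01).lf i0).Y.cellv v k))) := rfl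
  rw [c1, b1]
  rfl

end win

section link

variable {T S : Sp} {E : ∀ k, (T.F k).Ω → Prop} {hE : 0 < ul (T.pr E)} (E2 : ∀ k, ((T.rest E).F k).Ω → Prop)
  (hE2 : 0 < ul ((T.rest E).pr E2)) (Z : ∀ k, Setoid (T.F k).Ω) {e : ℝ} (he : 0 < e)
  (hE3 : 0 < ul ((T.chg Z e he).pr (ev (S := T) E E2)))

include hE2 in
/-- informations on an event of an event over a finer base -/
theorem tr_rp (X : T.L) {B : ∀ k, Setoid (T.F k).Ω}
    (hX : PLe (S := T.rest E) (rp (restL E hE X)) (fun k => fc (F := (T.rest E).F k) (B k))) :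
    PLe (S := (T.chg Z e he).rest (ev (S := T) E E2))
      (rp (restL (S := T.chg Z e he) (ev (S := T) E E2) hE3 (chgL Z e he X)))
      (fun k => fc (F := ((T.chg Z e he).rest (ev (S := T) E E2)).F k) (B k)) := by
  induction X using cl_ind with | _ A0
  have h1 : PLe (rpI (restI E A0)) (fun k => fc (F := (T.rest E).F k) (B k)) := (rp_cl_le (restI E A0)).2.trans hX
  have h2 := PLe_pull (rrj E E2) (PLe_rest E2 hE2 h1)
  have h3 := PLe_chgP (S := T.rest (ev (S := T) E E2)) Z e he h2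
  have h4 : PLe (S := (T.chg Z e he).rest (ev (S := T) E E2))
      (rp (cl (restI (S := T.chg Z e he) (ev (S := T) E E2) (chgI Z e he A0))))
      (rpI (restI (S := T.chg Z e he) (ev (S := T) E E2) (chgI Z e he A0))) := (rp_cl_le _).1
  exact h4.trans h3

end link

section main

variable {T S : Sp} {E : ∀ k, (T.F k).Ω → Prop} {e0 : ℝ} {he0 : 0 < e0} (p : Pj (T.rest E) (S.chg S.tr e0 he0))
  {β κ : ℕ → Type} {VK : ∀ k, (T.F k).Ω → β k} (V : ∀ k, (S.F k).Ω → κ k)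
  (E2 : ∀ k, ((T.rest E).F k).Ω → Prop)
  {Z : ∀ k, Setoid (T.F k).Ω} {e e1 e' : ℝ} (he : 0 < e) (he1 : 0 < e1) (he' : 0 < e') {M g r : ℕ}

/-- THE LINK -/
theorem link_tr (hV : ∀ k ω ω', ((T.rest E).F k).μ ω ≠ 0 → ((T.rest E).F k).μ ω' ≠ 0 → ((T.rest E).F k).Z ω ω' →
      (VK k ω = VK k ω' ↔ V k (p.π k ω) = V k (p.π k ω'))) (hZ : ∀ k, Z k = Setoid.ker (VK k))
    (hee : e0 * e = e' * e1) (h01 : e0 ≤ 1) (h1' : e' ≤ 1) (hE : 0 < ul (T.pr E)) (hE2 : 0 < ul ((T.rest E).pr E2))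
    (hE2' : 0 < ul ((T.rest E).pr E2)) (hE3 : 0 < ul ((T.chg Z e he).pr (ev (S := T) E E2)))
    (t : MSys S (M + 1) (lin g) (Fin r)) (t' : MSys (Sz p V E2 he1) (M + 1) (lin g) (Fin r)) {s b : ℝ} (i0 : Fin r)
    (hw : PLe ((lbV p V E2).up e1 he1 (((t.im (unz p) E2 hE2').lf i0).win (e0 * s + e1 * (e' * b))))
      ((t'.lf i0).win (e' * b)))
    (X : T.L) (hX : PLe (rp (restL E hE X)) ((((t.trn e0 he0 h01).pull p).lf i0).win (s + e * b)))
    (Y : (T.chg Z e he).L) (hY : Y ≤ chgL Z e he X) :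
    PLe (rp (restL (S := T.chg Z e he) (ev (S := T) E E2) hE3 Y))
      ((((t'.trn e' he' h1').pull (pz p V E2 he he1 he' hV hZ hee)).lf i0).win b) := by
  rw [win_old] at hX ⊢
  have h1 := tr_rp (hE := hE) E2 hE2 Z he hE3 X hX
  have e2 : e0 * (s + e * b) = e0 * s + e1 * (e' * b) := by
    have e3 : e0 * (e * b) = (e0 * e) * b := by ring
    rw [mul_add, e3, hee]
    ring
  rw [e2] at h1
  have h2 : PS (Sz p V E2 he1) (fun k => (t.lf i0).La k ⊓ Setoid.ker ((t.lf i0).Y.cellv (e0 * s + e1 * (e' * b)) k))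
      (fun k => (t'.lf i0).La k ⊓ Setoid.ker ((t'.lf i0).Y.cellv (e' * b) k)) := hw
  have h3 := PS.pull (pz p V E2 he he1 he' hV hZ hee) (h2.trn (e := e') (he := he'))
  have h4 := rp_mono (restL_mono (S := T.chg Z e he) (ev (S := T) E E2) hE3 hY)
  exact (h4.trans h1).trans h3

end main

end

end Pool.Agent.Helper62.BLD
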