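import Pool.Agent.Helper62.BLD.Vl
import Pool.Agent.Helper33.CM.Zn

/-! Row VWZ, part 10: the point of the zoom is known to the point, over the box. -/

set_option autoImplicit false

namespace Pool.Agent.Helper62.BLD

open Finset Filter Topology Pool.Agent.Helper69.RK Pool.Agent.Helper31.EC Pool.Agent.Helper31.EC.Sp
open Pool.Agent.Helper31.EC.QS Pool.Agent.Helper40.EL Pool.Agent.Helper13.AM Pool.Agent.Helper10.BLD
open Pool.Agent.Helper57.TA (sc scT wgt rcst ev_scT sc_mul_mem)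
open Pool.Agent.Helper79.HLD (ga_le' q0_le dg_of_sc)

noncomputable section

section zr

variable {S : Sp} {d N r : ℕ} {c : CD S d N r} {w : Fin N → ℝ} {z : Fin N} {s e : ℝ} {he : 0 < e} {h1 : e ≤ 1}
  {Z : ∀ k, Setoid (S.F k).Ω} {c' : CD (S.chg Z e he) d N r}

theorem zr_base (hb : c.Bx w z) (hz : c.ZR w z s e he h1 Z c') : chgL Z e he (c.K s) = ⊥ := by
  have hZ : Z = (hb.bdd s).toInf.1 := funext hz.base
  subst hZ
  have hK : cl (hb.bdd s).toInf = c.K s := (io_eq _).symm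
  rw [← hK]
  exact chgL_base e he (hb.bdd s).toInf

/-- over the box -/
theorem zr_le (hb : c.Bx w z) (hz : c.ZR w z s e he h1 Z c') {x y : S.L} (h : x ≤ y ⊔ c.K s) :
    chgL Z e he x ≤ chgL Z e he y := by
  have h2 := chgL_mono Z e he h
  rw [chgL_sup, zr_base hb hz, sup_bot_eq] at h2
  exact h2

theorem zr_q (hb : c.Bx w z) (hz : c.ZR w z s e he h1 Z c') (hs : 0 ≤ s) (hse : s + e ≤ 1) (i : Fin (d + 1)) {b : ℝ}
    (hb0 : 0 ≤ b) (hb1 : b ≤ 1) : dg (c'.q i) b ≤ chgL Z e he (dg (c.q i) (s + e * b)) := by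
  obtain ⟨X, hX, hX'⟩ := hz.q i
  have h0 : 0 ≤ e * b := mul_nonneg he.le hb0
  have h2 : s + e * b ≤ 1 := by nlinarith
  rw [hX', cQ_dg Z e he h1 X hb1]
  apply zr_le hb hz
  have h3 := dg_of_sc hs (by linarith : s ≤ s + e * b) h2 X
  rw [add_sub_cancel_left, ← hX] at h3
  refine h3.trans ((dg_sub_le _ _ h2).trans (sup_le le_sup_left ?_))
  exact ((dg_mono _ h2).trans (q0_le hb s i)).trans le_sup_right

theorem zr_O (hb : c.Bx w z) (hz : c.ZR w z s e he h1 Z c') (w1 : ∀ j, 1 < w j) (wz : ∀ j, w j ≤ w z) (hs : 0 ≤ s)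
    (hse : w z * s + e ≤ 1) : c'.O ≤ chgL Z e he c.O := by
  have hsse : s + e ≤ 1 := by nlinarith [w1 z]
  refine sup_le ?_ ?_
  · rw [vd_le]
    intro i
    have h2 := zr_q hb hz hs hsse i zero_le_one le_rfl
    refine h2.trans (chgL_mono Z e he ?_)
    rw [mul_one]
    exact ((dg_mono _ hsse).trans (dg_le_vd c.q 1 i)).trans le_sup_left
  · rw [vd_le]
    intro j
    obtain ⟨Y, hY, hY'⟩ := hz.R j
    have hws : 0 ≤ w j * s := mul_nonneg (zero_le_one.trans (w1 j).le) hs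
    have hwe : w j * s + e ≤ 1 := Pool.Agent.Helper33.CM.we w1 wz hs hse j
    rw [hY', cQ_dg Z e he h1 Y le_rfl, mul_one]
    apply zr_le hb hz
    have h3 := dg_of_sc hws (by linarith : w j * s ≤ w j * s + e) hwe Y
    rw [add_sub_cancel_left, ← hY] at h3
    refine h3.trans ?_
    refine ga_le' hb w1 hs (by linarith) le_sup_right (le_sup_left.trans le_sup_left) hwe j fun l _ => ?_
    exact (((dg_mono _ hwe).trans (dg_le_vd c.R 1 l)).trans le_sup_right).trans le_sup_left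

end zr

/-- real coordinate changes -/
theorem fld_q {R1 R2 : Type*} [CommRing R1] [CommRing R2] {d : ℕ} (Φ : R1 →+* R2) (ρ1 : ℝ →+* R1) (ρ2 : ℝ →+* R2)
    (hΦ : ∀ a, Φ (ρ1 a) = ρ2 a) (A : Matrix (Fin (d + 1)) (Fin (d + 1)) ℝ) (hA : IsUnit A.det)
    (X : Fin (d + 1) → R1) (y : Fin (d + 1) → R2) (hy : ∀ m, Φ (∑ l, ρ1 (A⁻¹ m l) * X l) = y m) (i : Fin (d + 1)) :
    Φ (X i) = ∑ m, ρ2 (A i m) * y m := by
  have hAB : A * A⁻¹ = 1 := Matrix.mul_nonsing_inv A hA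
  have h1 := lin_inv ρ2 A A⁻¹ hAB (fun l => Φ (X l)) i
  rw [← h1]
  apply Finset.sum_congr rfl
  intro m _
  rw [← hy m, map_sum]
  congr 1
  apply Finset.sum_congr rfl
  intro l _
  rw [map_mul, hΦ]

end

end Pool.Agent.Helper62.BLD
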